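import Pool.Agent.X307.Lat
import Pool.Agent.TH841.SH.ShaDef

/-!
# The dimension of the rational Tate module and the divisible part
-/

set_option autoImplicit false

namespace Pool.Agent.X307

open Finset

variable {p : ℕ} [hp : Fact p.Prime] {S : Type} [AddCommGroup S]

lemma span_top {s : Finset (V p S)} (hs : Gen1 s) :
    Submodule.span ℚ_[p] (s : Set (V p S)) = ⊤ := by
  rw [eq_top_iff]
  intro x _
  obtain ⟨m, hm⟩ := x.tor 0
  have hp0 : (p : ℚ_[p]) ^ m ≠ 0 := pow_ne_zero _ (by exact_mod_cast hp.out.ne_zero)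
  have h1 : IsTate (((p : ℚ_[p]) ^ m) • x) := by
    have h3 := V.zsmul_apply ((((p ^ m : ℕ) : ℤ) : ℤ_[p])) x 0
    rw [zs_int _ hm, natCast_zsmul] at h3
    have e2 : (((((p ^ m : ℕ) : ℤ) : ℤ_[p])) : ℚ_[p]) = (p : ℚ_[p]) ^ m := by
      push_cast
      rfl
    rw [e2] at h3
    exact h3.trans hm
  obtain ⟨z, hz⟩ := span_tate hs h1
  have h2 : ((p : ℚ_[p]) ^ m) • x ∈ Submodule.span ℚ_[p] (s : Set (V p S)) := by
    rw [hz]
    exact Submodule.sum_mem _ fun t ht => Submodule.smul_mem _ _ (Submodule.subset_span ht)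
  have h3 := Submodule.smul_mem _ (((p : ℚ_[p]) ^ m)⁻¹) h2
  rwa [smul_smul, inv_mul_cancel₀ hp0, one_smul] at h3

lemma norm_mono {q : ℚ_[p]} {k m : ℕ} (h : ‖q * (p : ℚ_[p]) ^ k‖ ≤ 1) (hkm : k ≤ m) :
    ‖(p : ℚ_[p]) ^ m * q‖ ≤ 1 := by
  obtain ⟨l, rfl⟩ := Nat.exists_eq_add_of_le hkm
  rw [pow_add, mul_comm ((p : ℚ_[p]) ^ k), mul_assoc, mul_comm _ q, norm_mul]
  have h1 : ‖(p : ℚ_[p]) ^ l‖ ≤ 1 := by
    rw [norm_pow]
    exact pow_le_one₀ (norm_nonneg _) (Padic.norm_p_lt_one).le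
  calc _ ≤ 1 * 1 := mul_le_mul h1 h (norm_nonneg _) zero_le_one
    _ = 1 := one_mul 1

lemma integral' {s : Finset (V p S)} (hs : ∀ t ∈ s, IsTate t) (hi : Ind1 s) (q : V p S → ℚ_[p])
    (h : IsTate (∑ t ∈ s, q t • t)) : ∀ t ∈ s, ‖q t‖ ≤ 1 := by
  refine integral hs hi (s.sup fun t => V.den (q t)) q (fun t ht => ?_) h
  exact norm_mono (V.den_spec (q t)) (le_sup (f := fun t => V.den (q t)) ht)

/-- the homomorphism `q ↦ (q t)₀` -/
noncomputable def evh (t : V p S) : ℚ_[p] →+ S where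
  toFun q := (q • t).1 0
  map_zero' := by rw [zero_smul]; rfl
  map_add' q r := by rw [add_smul]; rfl

lemma evh_int {t : V p S} (ht : IsTate t) {q : ℚ_[p]} (hq : ‖q‖ ≤ 1) : evh t q = 0 := by
  have h := V.zsmul_apply ⟨q, hq⟩ t 0
  refine Eq.trans h ?_
  have h0 : t.1 0 = 0 := ht
  rw [h0]
  have h1 : (p ^ 0 : ℕ) • (0 : S) = 0 := smul_zero _
  rw [zs_appr h1, smul_zero]

end Pool.Agent.X307

namespace Pool.Agent.X307

open Finset

open Pool.Agent.TH841.SH.D (Pruf)

variable {S : Type} [AddCommGroup S]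

/-- the homomorphism `ℚ₂ / ℤ₂ → S` of an element of the Tate module -/
noncomputable def evP {t : V 2 S} (ht : IsTate t) : Pruf →+ S :=
  QuotientAddGroup.lift _ (evh t) (fun q hq => evh_int ht hq)

lemma evP_mk {t : V 2 S} (ht : IsTate t) (q : ℚ_[2]) :
    evP ht (QuotientAddGroup.mk q) = (q • t).1 0 := rfl

/-- **The rational Tate module is finite-dimensional, and its dimension is at most the corank.** -/
theorem exists_divP (hS : {s : S | 2 • s = 0}.Finite) :
    Module.Finite ℚ_[2] (V 2 S) ∧ ∃ r : ℕ, Module.finrank ℚ_[2] (V 2 S) ≤ r ∧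
      ∃ f : (Fin r → Pruf) →+ S, Function.Injective f := by
  classical
  obtain ⟨s, hs, hi⟩ := exists_basis1 (p := 2) hS
  have htop := span_top hs
  refine ⟨⟨⟨s, htop⟩⟩, s.card, ?_, ?_⟩
  · have h1 := finrank_span_finset_le_card (R := ℚ_[2]) s
    rw [Set.finrank, htop, finrank_top] at h1
    exact h1
  · let e := s.equivFin
    have ht : ∀ i : Fin s.card, IsTate (e.symm i).1 := fun i => hs.1 _ (e.symm i).2
    refine ⟨∑ i, (evP (ht i)).comp (Pi.evalAddMonoidHom (fun _ => Pruf) i), ?_⟩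
    rw [injective_iff_map_eq_zero]
    intro x hx
    choose q hq using fun i => QuotientAddGroup.mk_surjective (x i)
    have h1 : (∑ i, q i • (e.symm i).1 : V 2 S).1 0 = 0 := by
      have h2 : ∀ (T : Finset (Fin s.card)), (∑ i ∈ T, q i • (e.symm i).1 : V 2 S).1 0 =
          ∑ i ∈ T, evP (ht i) (x i) := by
        intro T
        induction T using Finset.induction_on with
        | empty => rfl
        | insert a T ha ih =>
          rw [sum_insert ha, sum_insert ha, ← ih, ← hq a, evP_mk]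
          rfl
      rw [h2, ← hx, AddMonoidHom.finsetSum_apply]
      rfl
    let q' : V 2 S → ℚ_[2] := fun t => if h : t ∈ s then q (e ⟨t, h⟩) else 0
    have h2 : ∑ t ∈ s, q' t • t = ∑ i, q i • (e.symm i).1 := by
      rw [← sum_coe_sort s]
      refine Fintype.sum_equiv e _ _ fun t => ?_
      simp only [q', t.2, dif_pos, Subtype.coe_eta, Equiv.symm_apply_apply]
    have h3 := integral' hs.1 hi q' (by
      change (∑ t ∈ s, q' t • t).1 0 = 0
      rw [h2]
      exact h1)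
    funext i
    have h4 := h3 (e.symm i).1 (e.symm i).2
    simp only [q', (e.symm i).2, dif_pos, Subtype.coe_eta, Equiv.apply_symm_apply] at h4
    rw [← hq i]
    exact (QuotientAddGroup.eq_zero_iff _).2 h4

end Pool.Agent.X307
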