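import Pool.Agent.X307.Sf
import Pool.Agent.X307.Lat2

/-!
# The dimension of the Bloch–Kato Selmer group
-/

set_option autoImplicit false
set_option linter.unusedSectionVars false

namespace Pool.Agent.X307

open WeierstrassCurve

open Pool.Agent.TH841.NF

open Pool.Agent.TH841.SH.D (Pt)

open Pool.Agent.Y723.QT (tf_EF)

section

variable {A B : ℤ} (hD : 4 * A ^ 3 + 27 * B ^ 2 ≠ 0) {e : ℤ} (he : e ^ 3 + A * e + B = 0)

include hD he

variable {F : Type} [Field F] [NumberField F]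

theorem v_le_crk : Module.Finite ℚ_[2] (V 2 (D.Sha (EF A B F))) ∧
    (BddAbove {q | D.HasDiv (EF A B F) q} →
      Module.finrank ℚ_[2] (V 2 (D.Sha (EF A B F))) ≤ D.crk (EF A B F)) := by
  have hS : {s : D.Sha (EF A B F) | 2 • s = 0}.Finite := by
    have h1 := tf_EF (F := F) hD he
    have h2 : {s : D.Sha (EF A B F) | s + s = 0}.Finite := Set.finite_coe_iff.1 h1
    refine h2.subset fun s hs => ?_
    have h3 : 2 • s = 0 := hs
    rw [two_nsmul] at h3
    exact h3
  obtain ⟨h1, r, hr, hf⟩ := exists_divP hS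
  refine ⟨h1, fun hb => hr.trans ?_⟩
  exact le_csSup hb hf

theorem finrank_h1f : Module.Finite ℚ_[2] (H1f 2 (EF A B F)) ∧
    Module.finrank ℚ_[2] (H1f 2 (EF A B F)) = Module.finrank ℤ (Pt (EF A B F) F) +
      Module.finrank ℚ_[2] (V 2 (D.Sha (EF A B F))) ∧
    (AJIso 2 (EF A B F) ↔ Module.finrank ℚ_[2] (H1f 2 (EF A B F)) =
      Module.finrank ℤ (Pt (EF A B F) F)) := by
  obtain ⟨h1, -⟩ := v_le_crk (F := F) hD he
  obtain ⟨g⟩ := h1f_EF (F := F) hD he
  have := fg_EF' (F := F) hD he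
  have hten : Module.Finite ℚ_[2] (Ten 2 (Pt (EF A B F) F)) :=
    Module.Finite.base_change ℤ ℚ_[2] (Pt (EF A B F) F)
  have h2 : Module.finrank ℚ_[2] (H1f 2 (EF A B F)) = Module.finrank ℤ (Pt (EF A B F) F) +
      Module.finrank ℚ_[2] (V 2 (D.Sha (EF A B F))) := by
    rw [g.finrank_eq, Module.finrank_prod, finrank_ten]
  refine ⟨Module.Finite.equiv g.symm, h2, ?_⟩
  rw [ajIso_EF hD he, h2]
  constructor
  · intro h
    have : Subsingleton (V 2 (D.Sha (EF A B F))) := ⟨fun a b => by rw [h a, h b]⟩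
    have h5 : Module.finrank ℚ_[2] (V 2 (D.Sha (EF A B F))) = 0 :=
      Module.finrank_zero_of_subsingleton
    omega
  · intro h s
    have h3 : Module.finrank ℚ_[2] (V 2 (D.Sha (EF A B F))) = 0 := by omega
    have h4 := Module.finrank_zero_iff.1 h3
    exact Subsingleton.elim _ _

end

end Pool.Agent.X307
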