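import Pool.Agent.X307.KD
import Pool.Agent.TH841.NF.ShaN

/-!
# The Bloch–Kato Selmer group of an elliptic curve over a number field and the Abel–Jacobi map

`W` is an elliptic curve over a number field `F`, `V_p(W) = T_p(W) ⊗ ℚ_p`.  A continuous cocycle `c` with
values in `V_p(W)` is described by the sequence `c₀, c₁, …` of the cocycles `cₙ = p⁻ⁿ c` modulo `T_p(W)`
with values in `V_p / T_p = W[p ^ ∞]`.  Its class is in the Bloch–Kato Selmer group `H¹_f(F, V_p(W))` if and
only if the classes of all the `cₙ` are in the Selmer group, that is locally trivial as classes with values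
in the points of `W` (Bloch–Kato: `H¹_f(F_v, V_p)` is the image of the Kummer map of `F_v`, and is the set
of the classes such that all the `cₙ` are trivial in `H¹(F_v, W)`).
-/

set_option autoImplicit false

namespace Pool.Agent.X307

open WeierstrassCurve Pool.Agent.TH841.SH.D

open scoped TensorProduct

variable {F : Type} [Field F] [NumberField F]

lemma act_act' {k : Type} [Field k] (W : WeierstrassCurve k) {F L L' : Type} [Field F] [Field L]
    [Field L'] [Algebra k F] [Algebra k L] [Algebra k L'] (ψ : L →ₐ[k] L') (φ : F →ₐ[k] L)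
    (P : Pt W F) : act W ψ (act W φ P) = act W (ψ.comp φ) P := by
  rcases P with _ | ⟨x, y, h⟩
  · rfl
  · rfl

lemma act_congr' {k : Type} [Field k] (W : WeierstrassCurve k) {F L : Type} [Field F] [Field L]
    [Algebra k F] [Algebra k L] (ψ φ : F →ₐ[k] L) (h : ∀ x, ψ x = φ x)
    (P : Pt W F) : act W ψ P = act W φ P := by
  have : ψ = φ := AlgHom.ext h
  rw [this]

/-- a point is fixed by the automorphisms that fix its coordinates -/
lemma exists_coord {k : Type} [Field k] (W : WeierstrassCurve k)
    (P : Pt W (AlgebraicClosure k)) : ∃ S : Set (AlgebraicClosure k), S.Finite ∧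
      ∀ φ : Gal k, (∀ z ∈ S, φ z = z) → act W φ.toAlgHom P = P := by
  rcases P with _ | ⟨x, y, h⟩
  · exact ⟨∅, Set.finite_empty, fun φ _ => map_zero (act W φ.toAlgHom)⟩
  · refine ⟨{x, y}, Set.toFinite _, fun φ hφ => ?_⟩
    have hx := hφ x (Set.mem_insert _ _)
    have hy := hφ y (Set.mem_insert_of_mem _ rfl)
    change (Affine.Point.some (φ x) (φ y) _ : Pt W (AlgebraicClosure k)) = _
    simp only [hx, hy]

/-- the coboundary `σ ↦ σ P - P` is locally constant -/
lemma cob_lc {k : Type} [Field k] (W : WeierstrassCurve k) (P : Pt W (AlgebraicClosure k)) :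
    IsLocallyConstant fun σ : Gal k => act W σ.toAlgHom P - P := by
  rw [IsLocallyConstant.iff_exists_open]
  intro σ
  obtain ⟨S, hfin, hS⟩ := exists_coord W P
  have : Finite S := hfin
  have : FiniteDimensional k (IntermediateField.adjoin k S) :=
    IntermediateField.finiteDimensional_adjoin fun x _ => Algebra.IsIntegral.isIntegral x
  refine ⟨(fun τ => σ⁻¹ * τ) ⁻¹' ((IntermediateField.adjoin k S).fixingSubgroup : Set (Gal k)),
    (IntermediateField.fixingSubgroup_isOpen _).preimage (continuous_const_mul _), ?_, ?_⟩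
  · show σ⁻¹ * σ ∈ (IntermediateField.adjoin k S).fixingSubgroup
    rw [inv_mul_cancel]
    exact one_mem _
  · intro τ hτ
    have h1 : σ⁻¹ * τ ∈ (IntermediateField.adjoin k S).fixingSubgroup := hτ
    rw [IntermediateField.mem_fixingSubgroup_iff] at h1
    have h2 := hS (σ⁻¹ * τ) fun z hz => h1 z (IntermediateField.subset_adjoin k _ hz)
    have h3 : act W τ.toAlgHom P = act W σ.toAlgHom P := by
      conv_rhs => rw [← h2, act_act']
      apply act_congr'
      intro z
      change τ z = σ ((σ⁻¹ * τ) z)
      rw [← AlgEquiv.mul_apply, mul_inv_cancel_left]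
    show act W τ.toAlgHom _ - _ = act W σ.toAlgHom _ - _
    rw [h3]

/-- a coboundary is a cocycle -/
lemma isCoc_cob {k : Type} [Field k] (W : WeierstrassCurve k) (P : Pt W (AlgebraicClosure k)) :
    IsCoc W fun σ : Gal k => act W σ.toAlgHom P - P := by
  refine ⟨cob_lc W P, fun σ τ => ?_⟩
  rw [map_sub, act_act', act_congr' W (σ.toAlgHom.comp τ.toAlgHom) (σ * τ).toAlgHom fun x => rfl]
  exact (sub_add_sub_cancel' _ _ _).symm

lemma locTriv_cob {k : Type} [Field k] (W : WeierstrassCurve k) (P : Pt W (AlgebraicClosure k))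
    (K : Type) [Field K] [Algebra k K] :
    LocTriv W K fun σ : Gal k => act W σ.toAlgHom P - P := by
  intro ι
  refine ⟨act W ι P, fun τ σ h => ?_⟩
  rw [map_sub, act_act', act_act']
  congr 1
  apply act_congr'
  intro x
  exact (h x).symm

/-- The group of the points of `W` over the algebraic closure of `F`. -/
def Pb (W : WeierstrassCurve F) : Type := Pt W (AlgebraicClosure F)

noncomputable instance Pb.group (W : WeierstrassCurve F) : AddCommGroup (Pb W) :=
  (inferInstance : AddCommGroup (Pt W (AlgebraicClosure F)))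

/-- The group of the continuous cocycles of the absolute Galois group of `F` with values in the points of
`W` that are locally trivial at all the places of `F`. -/
def Cc (W : WeierstrassCurve F) : Type := Pool.Agent.TH841.NF.D.shaCoc W

noncomputable instance Cc.group (W : WeierstrassCurve F) : AddCommGroup (Cc W) :=
  AddSubgroup.toAddCommGroup (Pool.Agent.TH841.NF.D.shaCoc W)

/-- The map `σ ↦ σ P - P`, `P` a point over the algebraic closure. -/
noncomputable def cbf (W : WeierstrassCurve F) (P : Pt W (AlgebraicClosure F)) :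
    Gal F → Pt W (AlgebraicClosure F) :=
  fun σ => act W σ.toAlgHom P - P

lemma cbf_zero (W : WeierstrassCurve F) : cbf W 0 = 0 := by
  funext σ
  change act W σ.toAlgHom 0 - 0 = 0
  rw [map_zero, sub_zero]

lemma cbf_add (W : WeierstrassCurve F) (P Q : Pt W (AlgebraicClosure F)) :
    cbf W (P + Q) = cbf W P + cbf W Q := by
  funext σ
  change act W σ.toAlgHom (P + Q) - (P + Q) =
    (act W σ.toAlgHom P - P) + (act W σ.toAlgHom Q - Q)
  rw [map_add]
  abel

lemma cbf_mem (W : WeierstrassCurve F) (P : Pt W (AlgebraicClosure F)) :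
    cbf W P ∈ Pool.Agent.TH841.NF.D.shaCoc W :=
  ⟨isCoc_cob W P, fun _ => locTriv_cob W P _, fun _ => locTriv_cob W P _⟩

/-- The coboundary `σ ↦ σ P - P`. -/
noncomputable def cb (W : WeierstrassCurve F) : Pb W →+ Cc W where
  toFun P := ⟨cbf W P, cbf_mem W P⟩
  map_zero' := Subtype.ext (cbf_zero W)
  map_add' P Q := Subtype.ext (cbf_add W P Q)

/-- The inclusion of the group of the points over `F`. -/
noncomputable def incl (W : WeierstrassCurve F) : Pt W F →+ Pb W :=
  act W (Algebra.ofId F (AlgebraicClosure F))

lemma cb_incl (W : WeierstrassCurve F) (P : Pt W F) : cb W (incl W P) = 0 := by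
  apply Subtype.ext
  funext σ
  change act W σ.toAlgHom (act W (Algebra.ofId F (AlgebraicClosure F)) P) -
    act W (Algebra.ofId F (AlgebraicClosure F)) P = 0
  rw [sub_eq_zero, act_act']
  apply act_congr'
  intro x
  exact σ.commutes x

/-- The Bloch–Kato Selmer group `H¹_f(F, V_p(W))`, a vector space over `ℚ_p`: the sequences `c₀, c₁, …`
of continuous cocycles of the absolute Galois group of `F`, of `p`-power order, locally trivial at all the
places, with `p cₙ₊₁ = cₙ`, modulo the sequences `σ ↦ σ xₙ - xₙ` given by the elements `x₀, x₁, …` of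
`V_p(W)`. -/
abbrev H1f (p : ℕ) [Fact p.Prime] (W : WeierstrassCurve F) : Type := CokD p (cb W)

/-- The `p`-adic Abel–Jacobi map of `W` over `F`, that is the map `ℚ_p ⊗ W(F) → H¹_f(F, V_p(W))` which
maps `1 ⊗ P` to the Kummer class of `P`, is an isomorphism of vector spaces over `ℚ_p`. -/
def AJIso (p : ℕ) [Fact p.Prime] (W : WeierstrassCurve F) : Prop := KumIso p (cb W) (incl W)

end Pool.Agent.X307
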