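import Pool.Agent.X307.KI
import Pool.Agent.X307.Sel
import Pool.Agent.TH841.SH.Kum
import Pool.Agent.Y682.Rk

/-!
# The Abel–Jacobi map of an elliptic curve and the Tate–Shafarevich group
-/

set_option autoImplicit false

namespace Pool.Agent.X307

open WeierstrassCurve Pool.Agent.TH841.SH.D

open scoped TensorProduct

variable {F : Type} [Field F] [NumberField F]

omit [NumberField F] in
lemma incl_inj (W : WeierstrassCurve F) : Function.Injective (incl W) :=
  @Affine.Point.map_injective F F F (AlgebraicClosure F) _ _ _ _ W.toAffine (Classical.decEq F)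
    (Classical.decEq _) _ _ _ _ _ _ _ (Algebra.ofId F (AlgebraicClosure F))

lemma pt_ext' {k : Type} [Field k] (W : WeierstrassCurve k) {L : Type} [Field L] [Algebra k L]
    {x y x' y' : L} (h : (W.baseChange L).toAffine.Nonsingular x y)
    (h' : (W.baseChange L).toAffine.Nonsingular x' y') (hx : x = x') (hy : y = y') :
    (Affine.Point.some x y h : Pt W L) = Affine.Point.some x' y' h' := by
  subst hx hy
  rfl

lemma cb_iff (W : WeierstrassCurve F) (a : Pb W) :
    cb W a = 0 ↔ ∃ m, incl W m = a := by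
  constructor
  · intro h
    have h1 : ∀ σ : Gal F, act W σ.toAlgHom a = a := by
      intro σ
      have h2 := congrFun (congrArg Subtype.val h) σ
      exact sub_eq_zero.1 h2
    rcases a with _ | ⟨X, Y, hn⟩
    · exact ⟨0, map_zero _⟩
    · have hfix : ∀ σ : Gal F, σ X = X ∧ σ Y = Y := by
        intro σ
        exact (Affine.Point.some.injEq _ _ _ _ _ _).mp (h1 σ)
      obtain ⟨x, hx⟩ := Pool.Agent.TH841.SH.fix_mem (K := F) X (fun τ => (hfix τ).1)
      obtain ⟨y, hy⟩ := Pool.Agent.TH841.SH.fix_mem (K := F) Y (fun τ => (hfix τ).2)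
      subst hx hy
      have hn' : (W.baseChange F).toAffine.Nonsingular x y :=
        (Affine.baseChange_nonsingular W (f := Algebra.ofId F (AlgebraicClosure F))
          (Algebra.ofId F (AlgebraicClosure F)).injective x y).mp hn
      exact ⟨(.some x y hn' : (W.baseChange F).toAffine.Point), rfl⟩
  · rintro ⟨m, rfl⟩
    exact cb_incl W m

/-- the projection to the Tate-Shafarevich group -/
noncomputable def toSha' (W : WeierstrassCurve F) :
    Pool.Agent.TH841.NF.D.shaCoc W →+ Pool.Agent.TH841.NF.D.Sha W :=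
  QuotientAddGroup.mk' ((cob W).addSubgroupOf (Pool.Agent.TH841.NF.D.shaCoc W))

/-- the projection to the Tate-Shafarevich group -/
noncomputable def toSha (W : WeierstrassCurve F) : Cc W →+ Pool.Agent.TH841.NF.D.Sha W :=
  toSha' W

lemma toSha_surj' (W : WeierstrassCurve F) : Function.Surjective (toSha' W) :=
  QuotientAddGroup.mk'_surjective _

lemma toSha_surj (W : WeierstrassCurve F) : Function.Surjective (toSha W) := toSha_surj' W

lemma toSha_iff (W : WeierstrassCurve F) (y : Cc W) :
    toSha W y = 0 ↔ ∃ a, cb W a = y := by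
  refine Iff.trans (QuotientAddGroup.eq_zero_iff _) ?_
  rw [AddSubgroup.mem_addSubgroupOf]
  constructor
  · rintro ⟨P, hP⟩
    exact ⟨P, Subtype.ext (funext fun σ => (hP σ).symm)⟩
  · rintro ⟨P, rfl⟩
    exact ⟨P, fun σ => rfl⟩

variable {p : ℕ} [hp : Fact p.Prime]

/-- **The Abel–Jacobi map is an isomorphism if and only if the rational Tate module of the
Tate-Shafarevich group is zero.** -/
theorem ajIso_iff {W : WeierstrassCurve F}
    (hdiv : ∀ a : Pb W, ∃ b, p • b = a) (hfg : Module.Finite ℤ (Pt W F)) :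
    AJIso p W ↔ ∀ s : V p (Pool.Agent.TH841.NF.D.Sha W), s = 0 :=
  kumIso_iff (incl_inj W) (cb_iff W) hdiv (toSha W) (toSha_surj W) (toSha_iff W)

theorem h1f_equiv {W : WeierstrassCurve F}
    (hdiv : ∀ a : Pb W, ∃ b, p • b = a) (hfg : Module.Finite ℤ (Pt W F)) :
    Nonempty (H1f p W ≃ₗ[ℚ_[p]] Ten p (Pt W F) × V p (Pool.Agent.TH841.NF.D.Sha W)) :=
  cokD_equiv (incl_inj W) (cb_iff W) hdiv (toSha W) (toSha_surj W) (toSha_iff W)

omit [NumberField F] in
/-- `Pt W F` is the group of the rational points -/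
lemma pt_equiv (W : WeierstrassCurve F) : Nonempty (Pt W F ≃+ Pool.Agent.Y682.MP W) := by
  suffices H : ∀ W' : WeierstrassCurve F, W' = W → Nonempty
      (@AddEquiv W'.toAffine.Point W.toAffine.Point
        (@Affine.Point.instAddCommGroup F _ W'.toAffine (Classical.decEq F)).toAdd
        (@Affine.Point.instAddCommGroup F _ W.toAffine (Classical.decEq F)).toAdd) by
    apply H (W.baseChange F)
    apply WeierstrassCurve.ext <;> simp [WeierstrassCurve.baseChange]
  rintro W' rfl
  exact ⟨@AddEquiv.refl _ (@Affine.Point.instAddCommGroup F _ W'.toAffine (Classical.decEq F)).toAdd⟩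

omit [NumberField F] in
lemma rk_eq (W : WeierstrassCurve F) : Module.finrank ℤ (Pt W F) =
    Module.finrank ℤ (Pool.Agent.Y682.MP W) := by
  obtain ⟨e⟩ := pt_equiv W
  exact LinearEquiv.finrank_eq e.toIntLinearEquiv

/-- halving of points over the algebraic closure -/
lemma half {W : WeierstrassCurve F} {A B : F} (hT : Pool.Agent.Y682.IsT W A B)
    (a : Pb W) : ∃ b, 2 • b = a := by
  obtain ⟨Q, hQ⟩ := Pool.Agent.Y682.exists_half hT a
  exact ⟨Q, (two_nsmul (Q : Pb W)).trans hQ.symm⟩

lemma fg_pt {W : WeierstrassCurve F} {A B : F} (hT : Pool.Agent.Y682.IsT W A B) :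
    Module.Finite ℤ (Pt W F) := by
  obtain ⟨e⟩ := pt_equiv W
  have := Pool.Agent.Y682.fg_MP hT
  exact Module.Finite.equiv e.symm.toIntLinearEquiv

/-- Curves with a rational point of order two, `p = 2`. -/
theorem ajIso_two_iff {W : WeierstrassCurve F} {A B : F} (hT : Pool.Agent.Y682.IsT W A B) :
    AJIso 2 W ↔ ∀ s : V 2 (Pool.Agent.TH841.NF.D.Sha W), s = 0 :=
  ajIso_iff (half hT) (fg_pt hT)

end Pool.Agent.X307
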