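import Pool.Agent.X307.MQ
import Pool.Agent.Y141.YQ.Sha

/-!
# Abel–Jacobi maps over quadratic fields
-/

set_option autoImplicit false
set_option linter.unusedSectionVars false

namespace Pool.Agent.X307

open WeierstrassCurve

open Pool.Agent.TH841.NF

open Pool.Agent.W307.RT (Sh)

open Pool.Agent.TH841.SH.D (Pt)

open Pool.Agent.Y723.QT (Tr Kl SqrtF shift_ne vr_shift delta_wc fg_EF)

lemma v_zero_of_kl {S : Type} [AddCommGroup S] {n : ℕ} (h : Kl S n) (s : V 2 S) : s = 0 := by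
  apply V.ext_of
  intro m
  obtain ⟨l, hl⟩ := s.tor (m + n)
  have h1 := s.pow_add m n
  rw [h l _ hl] at h1
  exact h1.symm

section

variable {A B : ℤ} (hD : 4 * A ^ 3 + 27 * B ^ 2 ≠ 0) {e : ℤ} (he : e ^ 3 + A * e + B = 0)

include hD he

variable {F : Type} [Field F] [NumberField F]

/-- halving of points over the algebraic closure -/
lemma half_EF (a : Pb (EF A B F)) : ∃ b, 2 • b = a := by
  obtain ⟨h1, h2⟩ := shift_ne (F := F) hD he
  have hT := Pool.Agent.Y682.wc_isT h1 h2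
  have φ : Pb (Pool.Agent.Y682.wc (3 * e : F) (A + 3 * e ^ 2)) ≃+ Pb (EF A B F) :=
    (Pool.Agent.Y655.XT.isoVR (vr_shift (F := F) hD he) (delta_wc hD he)).e (AlgebraicClosure F)
  obtain ⟨b, hb⟩ := half hT (φ.symm a)
  refine ⟨φ b, ?_⟩
  rw [← map_nsmul, hb, AddEquiv.apply_symm_apply]

lemma fg_EF' : Module.Finite ℤ (Pt (EF A B F) F) := by
  obtain ⟨e'⟩ := pt_equiv (EF A B F)
  have := fg_EF (F := F) hD he
  exact Module.Finite.equiv e'.symm.toIntLinearEquiv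

theorem ajIso_EF : AJIso 2 (EF A B F) ↔ ∀ s : V 2 (D.Sha (EF A B F)), s = 0 :=
  ajIso_iff (half_EF hD he) (fg_EF' hD he)

theorem h1f_EF : Nonempty (H1f 2 (EF A B F) ≃ₗ[ℚ_[2]]
    Ten 2 (Pt (EF A B F) F) × V 2 (D.Sha (EF A B F))) :=
  h1f_equiv (half_EF hD he) (fg_EF' hD he)

end

lemma v_zero_of_equiv {S S' : Type} [AddCommGroup S] [AddCommGroup S']
    (e : V 2 S ≃ₗ[ℚ_[2]] V 2 S') : (∀ s : V 2 S, s = 0) ↔ ∀ s : V 2 S', s = 0 := by
  constructor
  · intro h s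
    have := h (e.symm s)
    rw [LinearEquiv.map_eq_zero_iff] at this
    exact this
  · intro h s
    have := h (e s)
    rw [LinearEquiv.map_eq_zero_iff] at this
    exact this

lemma EF_Q (A B : ℤ) : EF A B ℚ = Sh A B := rfl

lemma rkQ_eq' (W : WeierstrassCurve ℚ) :
    Pool.Agent.TH841.SH.D.rk W = Module.finrank ℤ (Pool.Agent.Y682.MP W) := by
  unfold Pool.Agent.TH841.SH.D.rk Pool.Agent.Y682.MP Pool.Agent.Y682.MP.group
  congr! 2
  · exact congrArg (fun i => @WeierstrassCurve.Affine.Point.instAddCommGroup ℚ _ W.toAffine i)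
      (Subsingleton.elim _ _)
  · exact congrArg (fun i => @WeierstrassCurve.Affine.Point.instAddCommGroup ℚ _ W.toAffine i)
      (Subsingleton.elim _ _)

section main

variable {A B : ℤ} (hD : 4 * A ^ 3 + 27 * B ^ 2 ≠ 0) {e : ℤ} (he : e ^ 3 + A * e + B = 0)

include hD he

/-- a trivial twist -/
theorem bk_stable {q : ℤ} (hq : q ≠ 0) (ht : Tr (q ^ 2 * A) (q ^ 3 * B)) (K : Type) [Field K]
    [NumberField K] (hK : SqrtF q K) :
    (AJIso 2 (EF A B K) ↔ AJIso 2 (EF A B ℚ)) ∧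
    Module.finrank ℤ (Pt (EF A B K) K) = Module.finrank ℤ (Pt (EF A B ℚ) ℚ) ∧
    Nonempty (H1f 2 (EF A B K) ≃ₗ[ℚ_[2]] H1f 2 (EF A B ℚ)) := by
  obtain ⟨hrk, -⟩ := Pool.Agent.Y723.QT.stable hD he hq ht K hK
  obtain ⟨r, hr, hgen⟩ := hK
  obtain ⟨e'⟩ := Pool.Agent.Y723.QT.exists_e K
  have htw : tw (q : ℚ) (Sh A B) = Sh (q ^ 2 * A) (q ^ 3 * B) := by
    apply WeierstrassCurve.ext <;> simp [tw, Sh]
  obtain ⟨f0⟩ : Nonempty (V 2 (D.Sha (EF A B K)) ≃ₗ[ℚ_[2]]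
      V 2 (Pool.Agent.TH841.SH.D.Sha (Sh A B))) := by
    refine v_co (n := 1) (r := fun _ => r) (d := fun _ => (q : ℚ)) (sc_EF A B K) rfl rfl e'
      (fun _ => by rw [hr, map_intCast]) (fun _ => by exact_mod_cast hq)
      (by rw [Set.range_const]; exact hgen) ?_
    intro T hT
    have hc : T.card = 1 := by
      have h1 := Finset.card_le_univ T
      have h2 := Finset.card_pos.2 hT
      rw [Fintype.card_fin] at h1
      omega
    rw [Finset.prod_const, hc, pow_one, htw]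
    exact fun s => v_zero_of_kl ht.2 s
  obtain ⟨e0⟩ := Pool.Agent.Y141.YQ.t_SHA (Sh A B)
  obtain ⟨f1⟩ : Nonempty (V 2 (D.Sha (EF A B ℚ)) ≃ₗ[ℚ_[2]]
      V 2 (Pool.Agent.TH841.SH.D.Sha (Sh A B))) := v_equiv e0
  have f := f0.trans f1.symm
  have hr' : Module.finrank ℤ (Pt (EF A B K) K) = Module.finrank ℤ (Pt (EF A B ℚ) ℚ) := by
    rw [rk_eq, rk_eq]
    exact hrk.trans (rkQ_eq' _)
  refine ⟨?_, hr', ?_⟩
  · rw [ajIso_EF hD he, ajIso_EF hD he]
    exact v_zero_of_equiv f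
  · obtain ⟨g1⟩ := h1f_EF (F := K) hD he
    obtain ⟨g2⟩ := h1f_EF (F := ℚ) hD he
    obtain ⟨t⟩ := ten_equiv (p := 2) (fg_EF' (F := K) hD he) (fg_EF' (F := ℚ) hD he) hr'
    exact ⟨g1.trans ((LinearEquiv.prodCongr t f).trans g2.symm)⟩

/-- two trivial curves -/
theorem bk_zero {K : Type} [Field K] [NumberField K] (h : D.rk (EF A B K) = 0) {n : ℕ}
    (hk : Kl (D.Sha (EF A B K)) n) :
    AJIso 2 (EF A B K) ∧ (∀ x : H1f 2 (EF A B K), x = 0) ∧
      Module.finrank ℤ (Pt (EF A B K) K) = 0 := by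
  have h0 : ∀ s : V 2 (D.Sha (EF A B K)), s = 0 := fun s => v_zero_of_kl hk s
  have hr' : Module.finrank ℤ (Pt (EF A B K) K) = 0 := by
    rw [rk_eq]
    exact h
  refine ⟨(ajIso_EF hD he).2 h0, ?_, hr'⟩
  obtain ⟨g⟩ := h1f_EF (F := K) hD he
  have := fg_EF' (F := K) hD he
  have hten : ∀ t : Ten 2 (Pt (EF A B K) K), t = 0 := by
    intro t
    have h1 : Module.finrank ℚ_[2] (Ten 2 (Pt (EF A B K) K)) = 0 := by
      rw [finrank_ten]
      exact hr'
    have : Module.Finite ℚ_[2] (Ten 2 (Pt (EF A B K) K)) :=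
      Module.Finite.base_change ℤ ℚ_[2] (Pt (EF A B K) K)
    have h2 := Module.finrank_zero_iff.1 h1
    exact Subsingleton.elim _ _
  intro x
  have h2 : g x = 0 := Prod.ext (hten _) (h0 _)
  exact (LinearEquiv.map_eq_zero_iff g).1 h2

end main

end Pool.Agent.X307
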