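import Pool.Agent.X307.Desc
import Pool.Agent.Y500.XD.Zero0

/-!
# Explicit curves of rank `0, 1, …, 8` for which the bound of the descent is attained
-/

set_option autoImplicit false

namespace Pool.Agent.X307

open Pool.Agent.Y682 (MP)

/-- The curve `y² = x³ + a x² + 16 c x` satisfies the conditions of the descent, `c` has `r + 1` prime
factors and `a² - 64 c` one, the rank is at least `r`, and the bad primes are not split in the layers of the
cyclotomic `ℤ₃`-extension. -/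
def Good (r : ℕ) (a c : ℤ) : Prop :=
  a % 4 = 1 ∧ 0 < c ∧ a ^ 2 ≠ 64 * c ∧ (a < 0 ∨ a ^ 2 < 64 * c) ∧ om c = r + 1 ∧
    om (a ^ 2 - 64 * c) = 1 ∧ r ≤ Module.finrank ℤ (MP (E ℚ a c)) ∧
    ∀ p : ℕ, p.Prime → (p : ℤ) ∣ c * (a ^ 2 - 64 * c) →
      p = 3 ∨ p % 9 = 2 ∨ p % 9 = 4 ∨ p % 9 = 5 ∨ p % 9 = 7

lemma good_of {r : ℕ} {a c : ℤ} (S : Finset ℕ) (hS : ∀ p ∈ S, p.Prime) (q : ℕ) (hq : q.Prime)
    (h1 : a % 4 = 1) (h2 : 0 < c) (h3 : a ^ 2 ≠ 64 * c) (h4 : a < 0 ∨ a ^ 2 < 64 * c)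
    (hcS : c.natAbs = ∏ p ∈ S, p) (hr : S.card = r + 1) (hDq : (a ^ 2 - 64 * c).natAbs = q)
    (h5 : r ≤ Module.finrank ℤ (MP (E ℚ a c)))
    (h6 : ∀ p ∈ insert q S, p = 3 ∨ p % 9 = 2 ∨ p % 9 = 4 ∨ p % 9 = 5 ∨ p % 9 = 7) :
    Good r a c := by
  refine ⟨h1, h2, h3, h4, ?_, ?_, h5, fun p hp hd => h6 p ?_⟩
  · unfold om
    rw [hcS, Nat.primeFactors_prod hS, hr]
  · unfold om
    rw [hDq, hq.primeFactors, Finset.card_singleton]
  · rw [Finset.mem_insert]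
    rcases (Nat.prime_iff_prime_int.1 hp).dvd_or_dvd hd with h | h
    · right
      have h7 := Int.natCast_dvd.1 h
      rw [hcS] at h7
      obtain ⟨x, hx, hx'⟩ := (Prime.dvd_finsetProd_iff (Nat.prime_iff.1 hp) _).1 h7
      rwa [(Nat.prime_dvd_prime_iff_eq hp (hS x hx)).1 hx']
    · left
      have h7 := Int.natCast_dvd.1 h
      rw [hDq] at h7
      exact (Nat.prime_dvd_prime_iff_eq hp hq).1 h7

lemma nsq_of_prime {n : ℤ} {q : ℕ} (hq : q.Prime) (h : n.natAbs = q) : ¬ IsSquare n := by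
  rintro ⟨x, hx⟩
  rw [hx, Int.natAbs_mul] at h
  rw [← h] at hq
  have h1 := hq.ne_one
  rcases (Nat.prime_mul_iff.1 hq) with ⟨h2, h3⟩ | ⟨h2, h3⟩
  · exact h2.ne_one h3
  · exact h2.ne_one h3

set_option maxRecDepth 100000 in
lemma pr0 : Nat.Prime 103 := by norm_num

theorem ex0 : Good 0 (5) 2 := by
  have hq : Nat.Prime 103 := pr0
  refine good_of {2} (by norm_num) 103 hq (by norm_num) (by norm_num)
    (by norm_num) (by norm_num) (by norm_num) (by decide) (by norm_num) ?_ (by decide)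
  exact Nat.zero_le _

set_option maxRecDepth 100000 in
lemma pr1 : Nat.Prime 383 := by norm_num

theorem ex1 : Good 1 (1) 6 := by
  have hq : Nat.Prime 383 := pr1
  refine good_of {2, 3} (by norm_num) 383 hq (by norm_num) (by norm_num)
    (by norm_num) (by norm_num) (by norm_num) (by decide) (by norm_num) ?_ (by decide)
  exact rank_ge' (by norm_num) (by norm_num) (nsq_of_prime hq (by norm_num)) 1
    ![2, 3] (fun i => by fin_cases i <;> norm_num)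
    ![2]
    ![48]
    ![4] ![1]
    ![24]
    (by decide) (by decide) (by decide) (by decide) (by decide)
    !![1, 1; 1, 0]
    !![0, 1; 1, 1]
    (by decide) (by decide) (by decide)

set_option maxRecDepth 100000 in
lemma pr2 : Nat.Prime 1559 := by norm_num

theorem ex2 : Good 2 (-19) 30 := by
  have hq : Nat.Prime 1559 := pr2
  refine good_of {2, 3, 5} (by norm_num) 1559 hq (by norm_num) (by norm_num)
    (by norm_num) (by norm_num) (by norm_num) (by decide) (by norm_num) ?_ (by decide)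
  exact rank_ge' (by norm_num) (by norm_num) (nsq_of_prime hq (by norm_num)) 2
    ![2, 3, 5] (fun i => by fin_cases i <;> norm_num)
    ![2, 3]
    ![240, 160]
    ![2, 1] ![1, 1]
    ![14, 12]
    (by decide) (by decide) (by decide) (by decide) (by decide)
    !![1, 1, 0; 1, 0, 1; 1, 0, 0]
    !![0, 0, 1; 1, 0, 1; 0, 1, 1]
    (by decide) (by decide) (by decide)

set_option maxRecDepth 100000 in
lemma pr3 : Nat.Prime 8951 := by norm_num

theorem ex3 : Good 3 (-67) 210 := by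
  have hq : Nat.Prime 8951 := pr3
  refine good_of {2, 3, 5, 7} (by norm_num) 8951 hq (by norm_num) (by norm_num)
    (by norm_num) (by norm_num) (by norm_num) (by decide) (by norm_num) ?_ (by decide)
  exact rank_ge' (by norm_num) (by norm_num) (nsq_of_prime hq (by norm_num)) 3
    ![2, 3, 5, 7] (fun i => by fin_cases i <;> norm_num)
    ![2, 3, 5]
    ![1680, 1120, 672]
    ![2, 2, 2] ![1, 1, 1]
    ![38, 30, 22]
    (by decide) (by decide) (by decide) (by decide) (by decide)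
    !![1, 1, 0, 0; 1, 0, 1, 0; 1, 0, 0, 1; 1, 0, 0, 0]
    !![0, 0, 0, 1; 1, 0, 0, 1; 0, 1, 0, 1; 0, 0, 1, 1]
    (by decide) (by decide) (by decide)

set_option maxRecDepth 100000 in
lemma pr4 : Nat.Prime 148151 := by norm_num

theorem ex4 : Good 4 (-163) 2730 := by
  have hq : Nat.Prime 148151 := pr4
  refine good_of {2, 3, 5, 7, 13} (by norm_num) 148151 hq (by norm_num) (by norm_num)
    (by norm_num) (by norm_num) (by norm_num) (by decide) (by norm_num) ?_ (by decide)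
  exact rank_ge' (by norm_num) (by norm_num) (nsq_of_prime hq (by norm_num)) 4
    ![2, 3, 5, 7, 13] (fun i => by fin_cases i <;> norm_num)
    ![2, 3, 5, 7]
    ![21840, 14560, 8736, 6240]
    ![8, 1, 1, 1] ![1, 1, 2, 1]
    ![140, 120, 373, 78]
    (by decide) (by decide) (by decide) (by decide) (by decide)
    !![1, 1, 0, 0, 0; 1, 0, 1, 0, 0; 1, 0, 0, 1, 0; 1, 0, 0, 0, 1; 1, 0, 0, 0, 0]
    !![0, 0, 0, 0, 1; 1, 0, 0, 0, 1; 0, 1, 0, 0, 1; 0, 0, 1, 0, 1; 0, 0, 0, 1, 1]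
    (by decide) (by decide) (by decide)

set_option maxRecDepth 100000 in
lemma pr5 : Nat.Prime 3174071 := by norm_num

theorem ex5 : Good 5 (-2083) 117390 := by
  have hq : Nat.Prime 3174071 := pr5
  refine good_of {2, 3, 5, 7, 13, 43} (by norm_num) 3174071 hq (by norm_num) (by norm_num)
    (by norm_num) (by norm_num) (by norm_num) (by decide) (by norm_num) ?_ (by decide)
  exact rank_ge' (by norm_num) (by norm_num) (nsq_of_prime hq (by norm_num)) 5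
    ![2, 3, 5, 7, 13, 43] (fun i => by fin_cases i <;> norm_num)
    ![2, 3, 30, 7, 13]
    ![939120, 626080, 62608, 268320, 144480]
    ![4, 2, 2, 2, 2] ![1, 1, 1, 1, 3]
    ![952, 786, 234, 510, 3410]
    (by decide) (by decide) (by decide) (by decide) (by decide)
    !![1, 1, 0, 1, 0, 0; 1, 0, 1, 1, 0, 0; 1, 0, 0, 1, 0, 0; 1, 0, 0, 0, 1, 0; 1, 0, 0, 0, 0, 1; 1, 0, 0, 0, 0, 0]
    !![0, 0, 0, 0, 0, 1; 1, 0, 1, 0, 0, 0; 0, 1, 1, 0, 0, 0; 0, 0, 1, 0, 0, 1; 0, 0, 0, 1, 0, 1; 0, 0, 0, 0, 1, 1]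
    (by decide) (by decide) (by decide)

set_option maxRecDepth 100000 in
lemma pr6 : Nat.Prime 12713353 := by norm_num

theorem ex6 : Good 6 (-22915) 8005998 := by
  have hq : Nat.Prime 12713353 := pr6
  refine good_of {2, 3, 7, 11, 13, 31, 43} (by norm_num) 12713353 hq (by norm_num) (by norm_num)
    (by norm_num) (by norm_num) (by norm_num) (by decide) (by norm_num) ?_ (by decide)
  exact rank_ge' (by norm_num) (by norm_num) (nsq_of_prime hq (by norm_num)) 6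
    ![2, 3, 7, 11, 13, 31, 43] (fun i => by fin_cases i <;> norm_num)
    ![39, 13299, 43043, 9331, 14663, 1333]
    ![3284512, 9632, 2976, 13728, 8736, 96096]
    ![1, 1, 1, 1, 1, 1] ![1, 1, 1, 1, 1, 2]
    ![1806, 4, 152, 12, 22, 1203]
    (by decide) (by decide) (by decide) (by decide) (by decide)
    !![1, 0, 0, 0, 0, 0, 0; 1, 1, 1, 0, 0, 0, 0; 1, 0, 0, 1, 1, 0, 0; 1, 0, 1, 1, 0, 1, 0; 1, 1, 1, 1, 0, 0, 0; 1, 0, 1, 0, 1, 1, 1; 1, 0, 0, 1, 1, 1, 1]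
    !![1, 0, 0, 0, 0, 0, 0; 1, 0, 0, 0, 1, 1, 1; 0, 1, 0, 0, 1, 1, 1; 0, 1, 0, 0, 1, 0, 0; 1, 1, 1, 0, 1, 0, 0; 1, 0, 0, 1, 0, 1, 1; 1, 0, 1, 1, 0, 1, 0]
    (by decide) (by decide) (by decide)

set_option maxRecDepth 100000 in
lemma pr7 : Nat.Prime 2823750409 := by norm_num

theorem ex7 : Good 7 (-124483) 198004170 := by
  have hq : Nat.Prime 2823750409 := pr7
  refine good_of {2, 3, 5, 7, 13, 29, 41, 61} (by norm_num) 2823750409 hq (by norm_num) (by norm_num)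
    (by norm_num) (by norm_num) (by norm_num) (by decide) (by norm_num) ?_ (by decide)
  exact rank_ge' (by norm_num) (by norm_num) (nsq_of_prime hq (by norm_num)) 7
    ![2, 3, 5, 7, 13, 29, 41, 61] (fun i => by fin_cases i <;> norm_num)
    ![39, 108199, 17507, 55965, 77285, 362645, 78]
    ![81232480, 29280, 180960, 56608, 40992, 8736, 40616240]
    ![1, 1, 1, 1, 1, 1, 2] ![1, 1, 1, 2, 2, 2, 1]
    ![9006, 114, 272, 681, 485, 67, 6334]
    (by decide) (by decide) (by decide) (by decide) (by decide)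
    !![1, 0, 0, 0, 0, 0, 0, 1; 1, 1, 0, 0, 1, 0, 0, 1; 1, 0, 0, 0, 1, 1, 1, 0; 1, 0, 1, 1, 1, 0, 0, 0; 1, 1, 1, 0, 1, 1, 0, 1; 1, 0, 1, 0, 0, 1, 1, 0; 1, 0, 1, 1, 1, 1, 1, 0; 1, 0, 0, 1, 0, 0, 1, 0]
    !![0, 1, 1, 1, 1, 0, 0, 1; 1, 0, 0, 0, 1, 0, 1, 1; 0, 1, 1, 0, 1, 1, 1, 1; 0, 1, 0, 0, 1, 1, 0, 1; 0, 1, 0, 0, 1, 0, 1, 1; 0, 0, 1, 0, 0, 1, 1, 1; 0, 0, 1, 1, 0, 1, 0, 1; 1, 1, 1, 1, 1, 0, 0, 1]
    (by decide) (by decide) (by decide)

set_option maxRecDepth 100000 in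
lemma pr8 : Nat.Prime 4519029191 := by norm_num

theorem ex8 : Good 8 (-916843) 13205001810 := by
  have hq : Nat.Prime 4519029191 := pr8
  refine good_of {2, 3, 5, 7, 11, 13, 29, 59, 257} (by norm_num) 4519029191 hq (by norm_num) (by norm_num)
    (by norm_num) (by norm_num) (by norm_num) (by decide) (by norm_num) ?_ (by decide)
  exact rank_ge' (by norm_num) (by norm_num) (nsq_of_prime hq (by norm_num)) 8
    ![2, 3, 5, 7, 11, 13, 29, 59, 257] (fun i => by fin_cases i <;> norm_num)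
    ![118734, 26390, 1319181, 1223365, 833965, 5138133, 9735, 118118]
    ![1779440, 8006064, 160160, 172704, 253344, 41120, 21703136, 1788720]
    ![4, 4, 1, 2, 5, 1, 5, 2] ![1, 1, 2, 3, 2, 2, 1, 1]
    ![4184, 304, 463, 746, 20823, 1459, 2206, 106]
    (by decide) (by decide) (by decide) (by decide) (by decide)
    !![1, 1, 1, 0, 0, 0, 0, 0, 1; 1, 1, 0, 1, 0, 0, 1, 1, 0; 1, 0, 1, 0, 1, 1, 0, 1, 0; 1, 1, 1, 0, 0, 0, 1, 0, 1; 1, 1, 0, 0, 1, 1, 1, 1, 1; 1, 0, 1, 0, 1, 0, 1, 0, 1; 1, 0, 1, 1, 1, 0, 1, 0, 0; 1, 0, 0, 1, 1, 1, 1, 1, 1; 1, 1, 0, 1, 0, 1, 0, 0, 0]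
    !![0, 0, 1, 1, 1, 0, 0, 0, 0; 0, 1, 1, 0, 1, 0, 1, 1, 1; 1, 0, 1, 1, 0, 1, 1, 1, 0; 0, 1, 1, 0, 0, 0, 1, 0, 1; 0, 1, 1, 1, 1, 1, 1, 1, 1; 0, 0, 1, 1, 0, 0, 0, 1, 1; 1, 0, 0, 1, 0, 0, 0, 0, 0; 1, 1, 1, 0, 0, 0, 0, 1, 0; 0, 1, 1, 0, 0, 1, 0, 0, 1]
    (by decide) (by decide) (by decide)

end Pool.Agent.X307
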