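import Pool.Agent.X307.KD

/-!
# The abstract Kummer map `M ⊗ ℚ_p → V_p(C) / V_p(A)`

`0 → M → A → C` is an exact sequence of abelian groups, `A` is divisible by `p`.  Then there is a Kummer
map `M → V_p(C) / V_p(A)`: it maps `P` to the class of the sequence of the images of `Q₀, Q₁, …` in `C`
where `Q₀ = P`, `p Qₙ₊₁ = Qₙ`.  If `M` is finitely generated its extension to `ℚ_p ⊗ M` is injective, and
it is surjective if and only if `V_p(C / A) = 0`.
-/

set_option autoImplicit false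

namespace Pool.Agent.X307

open scoped TensorProduct

variable {p : ℕ} [hp : Fact p.Prime] {A C M : Type*} [AddCommGroup A] [AddCommGroup C]
  [AddCommGroup M]

/-- the cokernel of `V_p(A) → V_p(C)` -/
abbrev Cok (p : ℕ) [Fact p.Prime] (d : A →+ C) : Type _ :=
  V p C ⧸ LinearMap.range (V.map d : V p A →ₗ[ℚ_[p]] V p C)

omit hp in
lemma exists_div (hdiv : ∀ a : A, ∃ b, p • b = a) (a : A) :
    ∃ Q : ℕ → A, Q 0 = a ∧ ∀ n, p • Q (n + 1) = Q n := by
  choose f hf using hdiv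
  exact ⟨fun n => Nat.rec a (fun _ b => f b) n, rfl, fun n => hf _⟩

section

variable (d : A →+ C) (j : M →+ A) (hj : Function.Injective j)
  (hker : ∀ a : A, d a = 0 ↔ ∃ m, j m = a) (hdiv : ∀ a : A, ∃ b, p • b = a)

include hker in
omit hp in
lemma d_j (m : M) : d (j m) = 0 := (hker _).2 ⟨m, rfl⟩

/-- the Kummer classes do not depend on the divisions -/
lemma kum_indep {Q Q' : ℕ → A} (h0 : d (Q 0) = 0) (h : ∀ n, p • Q (n + 1) = Q n)
    (h0' : d (Q' 0) = 0) (h' : ∀ n, p • Q' (n + 1) = Q' n) (he : Q 0 = Q' 0) :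
    (Submodule.Quotient.mk (kumV d Q h0 h) : Cok p d) = Submodule.Quotient.mk (kumV d Q' h0' h') := by
  rw [Submodule.Quotient.eq]
  refine ⟨⟨fun n => Q n - Q' n, fun n => ⟨?_, n, ?_⟩⟩, ?_⟩
  · rw [smul_sub, h, h']
  · rw [smul_sub, pow_smul_div h, pow_smul_div h', he, sub_self]
  · apply V.ext_of
    intro n
    exact map_sub d _ _

include hdiv in
/-- **The abstract Kummer map.** -/
theorem exists_kum : ∃ κ : M →+ Cok p d, ∀ (m : M) (Q : ℕ → A) (h0 : Q 0 = j m)
    (h : ∀ n, p • Q (n + 1) = Q n),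
    κ m = Submodule.Quotient.mk (kumV d Q (by rw [h0]; exact d_j d j hker m) h) := by
  choose Q hQ0 hQ using fun m : M => exists_div hdiv (j m)
  refine ⟨⟨⟨fun m => Submodule.Quotient.mk (kumV d (Q m) (by rw [hQ0]; exact d_j d j hker m)
    (hQ m)), ?_⟩, ?_⟩, ?_⟩
  · have h1 : (Submodule.Quotient.mk (kumV d (Q 0) (by rw [hQ0]; exact d_j d j hker 0) (hQ 0)) :
        Cok p d) = Submodule.Quotient.mk (kumV d (fun _ => 0) (map_zero d) (fun _ => smul_zero _)) :=
      kum_indep d _ _ _ _ (by rw [hQ0, map_zero])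
    rw [h1]
    have h2 : kumV (p := p) d (fun _ => (0 : A)) (map_zero d) (fun _ => smul_zero _) = 0 := by
      apply V.ext_of
      intro n
      exact map_zero d
    rw [h2]
    rfl
  · intro m m'
    have h3 : ∀ n, p • (Q m (n + 1) + Q m' (n + 1)) = Q m n + Q m' n := by
      intro n
      rw [smul_add, hQ, hQ]
    have h4 : d (Q m 0 + Q m' 0) = 0 := by
      rw [hQ0, hQ0, map_add, d_j d j hker, d_j d j hker, add_zero]
    have h1 : (Submodule.Quotient.mk (kumV d (Q (m + m')) (by rw [hQ0]; exact d_j d j hker _)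
        (hQ (m + m'))) : Cok p d) =
        Submodule.Quotient.mk (kumV d (fun n => Q m n + Q m' n) h4 h3) :=
      kum_indep d _ _ _ _ (by rw [hQ0, map_add, hQ0, hQ0])
    change (Submodule.Quotient.mk (kumV d (Q (m + m')) _ (hQ (m + m'))) : Cok p d) = _
    rw [h1]
    change _ = (Submodule.Quotient.mk (_ + _) : Cok p d)
    congr 1
    apply V.ext_of
    intro n
    exact map_add d _ _
  · intro m Q' h0 h
    exact kum_indep d _ _ _ _ (by rw [hQ0, h0])

variable {d j}

/-- the reduction of an element of `ℤ_p ⊗ M` -/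
lemma exists_rep (κ : M →+ Cok p d) (hκ : ∀ (m : M) (Q : ℕ → A) (h0 : Q 0 = j m)
    (h : ∀ n, p • Q (n + 1) = Q n),
    κ m = Submodule.Quotient.mk (kumV d Q (by rw [h0]; exact d_j d j hker m) h))
    (hdiv : ∀ a : A, ∃ b, p • b = a) (η : ℤ_[p] ⊗[ℤ] M) :
    ∃ c : V p C, (Submodule.Quotient.mk c : Cok p d) =
      LinearMap.liftBaseChange ℚ_[p] κ.toIntLinearMap
        (LinearMap.rTensor M (Algebra.linearMap ℤ_[p] ℚ_[p] |>.restrictScalars ℤ) η) ∧
    ∀ n, ∃ (T : A) (m : M) (ε : ℤ_[p] ⊗[ℤ] M), c.1 n = d T ∧ (p ^ n : ℕ) • T = j m ∧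
      η = 1 ⊗ₜ m + ((p : ℤ_[p]) ^ n) • ε := by
  induction η using TensorProduct.induction_on with
  | zero =>
    refine ⟨0, ?_, fun n => ⟨0, 0, 0, ?_, ?_, ?_⟩⟩
    · rw [map_zero, map_zero]
      rfl
    · exact (map_zero d).symm
    · rw [smul_zero, map_zero]
    · rw [TensorProduct.tmul_zero, smul_zero, add_zero]
  | tmul z m =>
    obtain ⟨Q, hQ0, hQ⟩ := exists_div hdiv (j m)
    have h0 : d (Q 0) = 0 := by
      rw [hQ0]
      exact d_j d j hker m
    refine ⟨(z : ℚ_[p]) • kumV d Q h0 hQ, ?_, fun n => ?_⟩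
    · rw [LinearMap.rTensor_tmul, LinearMap.liftBaseChange_tmul]
      rw [Submodule.Quotient.mk_smul]
      congr 1
      exact (hκ m Q hQ0 hQ).symm
    · have h1 := PadicInt.appr_spec n z
      rw [Ideal.mem_span_singleton] at h1
      obtain ⟨w, hw⟩ := h1
      refine ⟨(z.appr n) • Q n, (z.appr n) • m, w ⊗ₜ m, ?_, ?_, ?_⟩
      · rw [V.zsmul_apply, zs_appr (m := n), map_nsmul]
        · rfl
        · change (p ^ n : ℕ) • d (Q n) = 0
          rw [← map_nsmul, pow_smul_div hQ, h0]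
      · rw [smul_comm, pow_smul_div hQ, hQ0, map_nsmul]
      · have h2 : z = (z.appr n : ℤ_[p]) + (p : ℤ_[p]) ^ n * w := by
          rw [← hw]
          ring
        have h3 : ((z.appr n : ℕ) : ℤ_[p]) ⊗ₜ[ℤ] m = (1 : ℤ_[p]) ⊗ₜ[ℤ] ((z.appr n) • m) := by
          rw [← natCast_zsmul, ← TensorProduct.smul_tmul]
          congr 1
          simp
        conv_lhs => rw [h2, TensorProduct.add_tmul, h3]
        rw [TensorProduct.smul_tmul', smul_eq_mul]
  | add x y hx hy =>
    obtain ⟨c, hc, hc'⟩ := hx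
    obtain ⟨e, he, he'⟩ := hy
    refine ⟨c + e, ?_, fun n => ?_⟩
    · rw [map_add, map_add, Submodule.Quotient.mk_add, hc, he]
    · obtain ⟨T, m, ε, h1, h2, h3⟩ := hc' n
      obtain ⟨T', m', ε', h1', h2', h3'⟩ := he' n
      refine ⟨T + T', m + m', ε + ε', ?_, ?_, ?_⟩
      · rw [map_add, ← h1, ← h1']
        rfl
      · rw [smul_add, h2, h2', map_add]
      · rw [TensorProduct.tmul_add, smul_add, ← sub_eq_zero]
        conv_lhs => rw [h3, h3']
        abel

/-- clearing denominators -/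
lemma exists_int (ξ : ℚ_[p] ⊗[ℤ] M) : ∃ (k : ℕ) (η : ℤ_[p] ⊗[ℤ] M),
    ((p : ℚ_[p]) ^ k) • ξ =
      LinearMap.rTensor M (Algebra.linearMap ℤ_[p] ℚ_[p] |>.restrictScalars ℤ) η := by
  induction ξ using TensorProduct.induction_on with
  | zero => exact ⟨0, 0, by rw [map_zero, smul_zero]⟩
  | tmul q m =>
    refine ⟨V.den q, (V.zq q) ⊗ₜ m, ?_⟩
    rw [LinearMap.rTensor_tmul, TensorProduct.smul_tmul', smul_eq_mul, mul_comm]
    rfl
  | add x y hx hy =>
    obtain ⟨k, η, h⟩ := hx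
    obtain ⟨l, θ, h'⟩ := hy
    refine ⟨k + l, ((p : ℤ_[p]) ^ l) • η + ((p : ℤ_[p]) ^ k) • θ, ?_⟩
    have key : ∀ (r : ℕ) (θ : ℤ_[p] ⊗[ℤ] M),
        LinearMap.rTensor M (Algebra.linearMap ℤ_[p] ℚ_[p] |>.restrictScalars ℤ)
          (((p : ℤ_[p]) ^ r) • θ) = ((p : ℚ_[p]) ^ r) •
          LinearMap.rTensor M (Algebra.linearMap ℤ_[p] ℚ_[p] |>.restrictScalars ℤ) θ := by
      intro r θ
      induction θ using TensorProduct.induction_on with
      | zero => simp
      | tmul z m =>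
        rw [TensorProduct.smul_tmul', LinearMap.rTensor_tmul, LinearMap.rTensor_tmul,
          TensorProduct.smul_tmul']
        congr 1
      | add x y hx hy => rw [smul_add, map_add, hx, hy, map_add, smul_add]
    rw [map_add, key, key, ← h, ← h', smul_smul, smul_smul, ← pow_add, ← pow_add, smul_add,
      add_comm l k]

end

end Pool.Agent.X307
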