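import Pool.Agent.X307.AJ

/-!
# The abstract Kummer map is injective, and it is surjective if and only if `V_p(C / A) = 0`
-/

set_option autoImplicit false

namespace Pool.Agent.X307

open scoped TensorProduct

variable {p : ℕ} [hp : Fact p.Prime] {A C M : Type*} [AddCommGroup A] [AddCommGroup C]
  [AddCommGroup M]

variable {d : A →+ C} {j : M →+ A} (hj : Function.Injective j)
  (hker : ∀ a : A, d a = 0 ↔ ∃ m, j m = a) (hdiv : ∀ a : A, ∃ b, p • b = a)

lemma sep [Module.Finite ℤ M] {x : ℤ_[p] ⊗[ℤ] M}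
    (h : ∀ n : ℕ, ∃ y, x = ((p : ℤ_[p]) ^ n) • y) : x = 0 := by
  have h1 : (⨅ i : ℕ, (Ideal.span {(p : ℤ_[p])}) ^ i • (⊤ : Submodule ℤ_[p] (ℤ_[p] ⊗[ℤ] M))) = ⊥ :=
    Ideal.iInf_pow_smul_eq_bot_of_isLocalRing _ (by
      rw [← PadicInt.maximalIdeal_eq_span_p]
      exact (IsLocalRing.maximalIdeal.isMaximal _).ne_top)
  have h2 : x ∈ (⨅ i : ℕ, (Ideal.span {(p : ℤ_[p])}) ^ i •
      (⊤ : Submodule ℤ_[p] (ℤ_[p] ⊗[ℤ] M))) := by
    rw [Submodule.mem_iInf]
    intro n
    obtain ⟨y, rfl⟩ := h n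
    rw [Ideal.span_singleton_pow]
    exact Submodule.smul_mem_smul (Ideal.mem_span_singleton_self _) trivial
  rw [h1] at h2
  exact (Submodule.mem_bot _).1 h2

lemma rT_smul (r : ℕ) (θ : ℤ_[p] ⊗[ℤ] M) :
    LinearMap.rTensor M (Algebra.linearMap ℤ_[p] ℚ_[p] |>.restrictScalars ℤ)
      (((p : ℤ_[p]) ^ r) • θ) = ((p : ℚ_[p]) ^ r) •
      LinearMap.rTensor M (Algebra.linearMap ℤ_[p] ℚ_[p] |>.restrictScalars ℤ) θ := by
  induction θ using TensorProduct.induction_on with
  | zero => simp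
  | tmul z m =>
    rw [TensorProduct.smul_tmul', LinearMap.rTensor_tmul, LinearMap.rTensor_tmul,
      TensorProduct.smul_tmul']
    congr 1
  | add x y hx hy => rw [smul_add, map_add, hx, hy, map_add, smul_add]

include hj hker hdiv in
/-- **Injectivity of the Kummer map.** -/
theorem kum_inj [Module.Finite ℤ M] (κ : M →+ Cok p d)
    (hκ : ∀ (m : M) (Q : ℕ → A) (h0 : Q 0 = j m) (h : ∀ n, p • Q (n + 1) = Q n),
      κ m = Submodule.Quotient.mk (kumV d Q (by rw [h0]; exact d_j d j hker m) h)) :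
    Function.Injective (LinearMap.liftBaseChange ℚ_[p] κ.toIntLinearMap) := by
  rw [injective_iff_map_eq_zero]
  intro ξ hξ
  obtain ⟨k, η, hη⟩ := exists_int ξ
  obtain ⟨c, hc, hc'⟩ := exists_rep hker κ hκ hdiv η
  rw [← hη, map_smul, hξ, smul_zero, Submodule.Quotient.mk_eq_zero] at hc
  obtain ⟨x, rfl⟩ := hc
  obtain ⟨m0, hm0⟩ := x.tor0
  have hp0 : (p : ℚ_[p]) ≠ 0 := by exact_mod_cast hp.out.ne_zero
  have h1 : ((p : ℤ_[p]) ^ m0) • η = 0 := by
    apply sep
    intro n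
    obtain ⟨T, m, ε, h1, h2, h3⟩ := hc' n
    have h4 : d (T - x.1 n) = 0 := by
      rw [map_sub, ← h1]
      exact sub_self _
    obtain ⟨m', hm'⟩ := (hker _).1 h4
    have h5 : (p ^ m0 : ℕ) • m = (p ^ (m0 + n) : ℕ) • m' := by
      apply hj
      rw [map_nsmul, map_nsmul, hm', smul_sub, hm0, sub_zero, ← h2, pow_add, mul_smul]
    have h6 : ((p : ℤ_[p]) ^ m0) • ((1 : ℤ_[p]) ⊗ₜ[ℤ] m) =
        ((p : ℤ_[p]) ^ (m0 + n)) • ((1 : ℤ_[p]) ⊗ₜ[ℤ] m') := by
      have h7 : (1 : ℤ_[p]) ⊗ₜ[ℤ] ((p ^ m0 : ℕ) • m) =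
          (1 : ℤ_[p]) ⊗ₜ[ℤ] ((p ^ (m0 + n) : ℕ) • m') := by rw [h5]
      rw [← natCast_zsmul, ← natCast_zsmul, ← TensorProduct.smul_tmul, ← TensorProduct.smul_tmul]
        at h7
      rw [TensorProduct.smul_tmul', TensorProduct.smul_tmul']
      convert h7 using 2
      · simp
      · simp
    refine ⟨((p : ℤ_[p]) ^ m0) • ((1 : ℤ_[p]) ⊗ₜ[ℤ] m' + ε), ?_⟩
    conv_lhs => rw [h3]
    rw [smul_add, h6, smul_smul, smul_smul, smul_add, ← pow_add, ← pow_add, add_comm n m0]
  have h2 : ((p : ℚ_[p]) ^ m0) • (((p : ℚ_[p]) ^ k) • ξ) = 0 := by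
    rw [hη, ← rT_smul, h1, map_zero]
  rw [smul_smul] at h2
  exact (smul_eq_zero.1 h2).resolve_left (mul_ne_zero (pow_ne_zero _ hp0) (pow_ne_zero _ hp0))

include hker hdiv in
/-- If the Kummer map is surjective then all the coordinates of the elements of `V_p(C)` are in the
image of `A`. -/
theorem mem_of_surj (κ : M →+ Cok p d)
    (hκ : ∀ (m : M) (Q : ℕ → A) (h0 : Q 0 = j m) (h : ∀ n, p • Q (n + 1) = Q n),
      κ m = Submodule.Quotient.mk (kumV d Q (by rw [h0]; exact d_j d j hker m) h))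
    (hs : Function.Surjective (LinearMap.liftBaseChange ℚ_[p] κ.toIntLinearMap))
    (c : V p C) (n : ℕ) : ∃ a, d a = c.1 n := by
  obtain ⟨ξ, hξ⟩ := hs (Submodule.Quotient.mk c)
  obtain ⟨k, η, hη⟩ := exists_int ξ
  obtain ⟨e, he, he'⟩ := exists_rep hker κ hκ hdiv η
  rw [← hη, map_smul, hξ, ← Submodule.Quotient.mk_smul, Submodule.Quotient.eq] at he
  obtain ⟨x, hx⟩ := he
  obtain ⟨T, m, ε, h1, -, -⟩ := he' (n + k)
  refine ⟨T - x.1 (n + k), ?_⟩
  have h2 := congrArg (fun y : V p C => y.1 (n + k)) hx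
  change d (x.1 (n + k)) = e.1 (n + k) - (((p : ℚ_[p]) ^ k) • c).1 (n + k) at h2
  have h3 : (((p : ℚ_[p]) ^ k) • c).1 (n + k) = c.1 n := by
    have h4 := V.zsmul_apply ((((p ^ k : ℕ) : ℤ) : ℤ_[p])) c (n + k)
    obtain ⟨m, hm⟩ := c.tor (n + k)
    rw [zs_int _ hm, natCast_zsmul, c.pow_add] at h4
    rw [← h4]
    push_cast
    rfl
  rw [map_sub, h2, h1, h3]
  abel

lemma exists_limit (u : ℕ → ℤ) (m : ℕ) (h : ∀ n, ((p ^ (m + n) : ℕ) : ℤ) ∣ u (n + 1) - u n) :
    ∃ z : ℤ_[p], ∀ n, z - (u n : ℤ_[p]) ∈ (Ideal.span {(p : ℤ_[p]) ^ n} : Ideal ℤ_[p]) := by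
  have hstep : ∀ n k, ((u n : ℤ_[p]) - (u (n + k) : ℤ_[p])) ∈
      (Ideal.span {(p : ℤ_[p]) ^ n} : Ideal ℤ_[p]) := by
    intro n k
    induction k with
    | zero => simp
    | succ k ih =>
      have h1 : ((u (n + k) : ℤ_[p]) - (u (n + (k + 1)) : ℤ_[p])) ∈
          (Ideal.span {(p : ℤ_[p]) ^ n} : Ideal ℤ_[p]) := by
        rw [Ideal.mem_span_singleton]
        obtain ⟨w, hw⟩ := h (n + k)
        refine ⟨-((p : ℤ_[p]) ^ (m + k) * (w : ℤ_[p])), ?_⟩
        have h2 : (u (n + (k + 1)) : ℤ_[p]) - (u (n + k) : ℤ_[p]) =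
            (p : ℤ_[p]) ^ (m + (n + k)) * (w : ℤ_[p]) := by
          rw [← add_assoc, ← Int.cast_sub, hw]
          push_cast
          ring
        rw [← neg_sub, h2, show m + (n + k) = n + (m + k) by ring, pow_add]
        ring
      have h2 := Ideal.add_mem _ ih h1
      rwa [sub_add_sub_cancel] at h2
  obtain ⟨L, hL⟩ := IsPrecomplete.prec (I := IsLocalRing.maximalIdeal ℤ_[p]) (M := ℤ_[p])
    inferInstance (f := fun n => (u n : ℤ_[p])) (by
      intro n l hnl
      obtain ⟨k, rfl⟩ := Nat.exists_eq_add_of_le hnl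
      rw [SModEq.sub_mem, PadicInt.maximalIdeal_eq_span_p, Ideal.span_singleton_pow,
        smul_eq_mul, Ideal.mul_top]
      exact hstep n k)
  refine ⟨L, fun n => ?_⟩
  have h1 := (hL n).symm
  rw [SModEq.sub_mem, PadicInt.maximalIdeal_eq_span_p, Ideal.span_singleton_pow,
    smul_eq_mul, Ideal.mul_top] at h1
  exact h1

include hj hker hdiv in
/-- The classes with all coordinates in the image of `A` are in the image of the Kummer map. -/
theorem mem_range_of_coord [Module.Finite ℤ M] (κ : M →+ Cok p d)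
    (hκ : ∀ (m : M) (Q : ℕ → A) (h0 : Q 0 = j m) (h : ∀ n, p • Q (n + 1) = Q n),
      κ m = Submodule.Quotient.mk (kumV d Q (by rw [h0]; exact d_j d j hker m) h))
    (c : V p C) (hS : ∀ n : ℕ, ∃ a, d a = c.1 n) :
    Submodule.Quotient.mk c ∈
      LinearMap.range (LinearMap.liftBaseChange ℚ_[p] κ.toIntLinearMap) := by
  choose R hR using hS
  obtain ⟨m, hm⟩ := c.tor0
  have hP : ∀ n, ∃ P, j P = (p ^ (m + n) : ℕ) • R n := by
    intro n
    apply (hker _).1
    rw [map_nsmul, hR, hm]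
  choose P hP using hP
  have hD : ∀ n, ∃ D, j D = p • R (n + 1) - R n := by
    intro n
    apply (hker _).1
    rw [map_sub, map_nsmul, hR, hR, c.succ, sub_self]
  choose D hD using hD
  have hPD : ∀ n, P (n + 1) = P n + (p ^ (m + n) : ℕ) • D n := by
    intro n
    apply hj
    rw [map_add, map_nsmul, hP, hP, hD, smul_sub, ← add_assoc, pow_succ, mul_smul]
    abel
  obtain ⟨r, f, hf⟩ := Module.Finite.exists_fin' ℤ M
  choose g hg using hf
  let u : ℕ → Fin r → ℤ := fun n => g (P 0) + ∑ l ∈ Finset.range n, (p ^ (m + l) : ℕ) • g (D l)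
  have hu : ∀ n, f (u n) = P n := by
    intro n
    induction n with
    | zero => simp [u, hg]
    | succ n ih =>
      have h1 : u (n + 1) = u n + (p ^ (m + n) : ℕ) • g (D n) := by
        simp only [u, Finset.sum_range_succ]
        abel
      rw [h1, map_add, ih, map_nsmul, hg, hPD]
  have hlim : ∀ i, ∃ z : ℤ_[p], ∀ n, z - (u n i : ℤ_[p]) ∈
      (Ideal.span {(p : ℤ_[p]) ^ n} : Ideal ℤ_[p]) := by
    intro i
    apply exists_limit (fun n => u n i) m
    intro n
    refine ⟨g (D n) i, ?_⟩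
    simp only [u, Finset.sum_range_succ, Pi.add_apply, Pi.smul_apply, Finset.sum_apply]
    rw [nsmul_eq_mul]
    ring
  choose z hz using hlim
  let e : Fin r → M := fun i => f (Pi.single i 1)
  have hfe : ∀ v : Fin r → ℤ, f v = ∑ i, v i • e i := by
    intro v
    conv_lhs => rw [pi_eq_sum_univ' v, map_sum]
    refine Finset.sum_congr rfl fun i _ => ?_
    rw [map_smul]
  choose Q hQ0 hQ using fun i => exists_div hdiv (j (e i))
  have hdQ : ∀ i, d (Q i 0) = 0 := fun i => by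
    rw [hQ0]
    exact d_j d j hker _
  have hp0 : (p : ℚ_[p]) ≠ 0 := by exact_mod_cast hp.out.ne_zero
  -- the sequence in `V_p(A)`
  let x : V p A := ⟨fun n => (∑ i, u n i • Q i n) - (p ^ m : ℕ) • R n, fun n => by
    refine ⟨?_, n, ?_⟩
    · have h1 : ∀ i, u (n + 1) i = u n i + ((p ^ (m + n) : ℕ) : ℤ) * g (D n) i := by
        intro i
        simp only [u, Finset.sum_range_succ, Pi.add_apply, Pi.smul_apply, Finset.sum_apply]
        rw [nsmul_eq_mul]
        ring
      have h2 : ∀ i, p • (u (n + 1) i • Q i (n + 1)) =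
          u n i • Q i n + (p ^ m : ℕ) • (g (D n) i • j (e i)) := by
        intro i
        rw [smul_comm, hQ, h1, add_smul, ← hQ0, ← pow_smul_div (hQ i) n]
        congr 1
        rw [mul_smul, natCast_zsmul, pow_add, mul_smul]
        congr 1
        rw [smul_comm]
      have h3 : ∑ i, (g (D n) i • j (e i)) = j (D n) := by
        conv_rhs => rw [← hg (D n), hfe]
        rw [map_sum]
        refine Finset.sum_congr rfl fun i _ => ?_
        rw [map_zsmul]
      rw [smul_sub, Finset.smul_sum, Finset.sum_congr rfl fun i _ => h2 i,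
        Finset.sum_add_distrib, ← Finset.smul_sum, h3, hD, smul_sub]
      rw [smul_comm p (p ^ m)]
      abel_nf
    · have h4 : ∀ i, (p ^ n : ℕ) • (u n i • Q i n) = u n i • j (e i) := by
        intro i
        rw [smul_comm, pow_smul_div (hQ i), hQ0]
      have h5 : ∑ i, u n i • j (e i) = j (P n) := by
        conv_rhs => rw [← hu n, hfe]
        rw [map_sum]
        refine Finset.sum_congr rfl fun i _ => ?_
        rw [map_zsmul]
      rw [smul_sub, Finset.smul_sum, Finset.sum_congr rfl fun i _ => h4 i, h5, hP, smul_smul,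
        ← pow_add, add_comm n m, sub_self]⟩
  have hx : V.map d x = (∑ i, (z i : ℚ_[p]) • kumV d (Q i) (hdQ i) (hQ i)) -
      ((p : ℚ_[p]) ^ m) • c := by
    apply V.ext_of
    intro n
    have h1 : ((∑ i, (z i : ℚ_[p]) • kumV d (Q i) (hdQ i) (hQ i) : V p C)).1 n =
        ∑ i, u n i • d (Q i n) := by
      have h2 : ∀ (s : Finset (Fin r)) (F : Fin r → V p C), (∑ i ∈ s, F i).1 n =
          ∑ i ∈ s, (F i).1 n := by
        intro s F
        induction s using Finset.induction_on with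
        | empty => rfl
        | insert a s ha ih =>
          rw [Finset.sum_insert ha, Finset.sum_insert ha, ← ih]
          rfl
      rw [h2]
      refine Finset.sum_congr rfl fun i _ => ?_
      rw [V.zsmul_apply]
      apply zs_eq (m := n)
      · change (p ^ n : ℕ) • d (Q i n) = 0
        rw [← map_nsmul, pow_smul_div (hQ i), hdQ]
      · exact hz i n
    have h3 : (((p : ℚ_[p]) ^ m) • c).1 n = (p ^ m : ℕ) • c.1 n := by
      have h4 := V.zsmul_apply ((((p ^ m : ℕ) : ℤ) : ℤ_[p])) c n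
      obtain ⟨m', hm'⟩ := c.tor n
      rw [zs_int _ hm', natCast_zsmul] at h4
      rw [← h4]
      push_cast
      rfl
    change d ((∑ i, u n i • Q i n) - (p ^ m : ℕ) • R n) = (∑ i, (z i : ℚ_[p]) •
      kumV d (Q i) (hdQ i) (hQ i) : V p C).1 n - (((p : ℚ_[p]) ^ m) • c).1 n
    rw [h1, h3, map_sub, map_sum, map_nsmul, hR]
    congr 1
    exact Finset.sum_congr rfl fun i _ => map_zsmul _ _ _
  refine ⟨((p : ℚ_[p]) ^ m)⁻¹ • ∑ i, (z i : ℚ_[p]) ⊗ₜ[ℤ] (e i), ?_⟩
  have h1 : LinearMap.liftBaseChange ℚ_[p] κ.toIntLinearMap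
      (∑ i, (z i : ℚ_[p]) ⊗ₜ[ℤ] (e i)) = ((p : ℚ_[p]) ^ m) • Submodule.Quotient.mk c := by
    rw [map_sum, ← Submodule.Quotient.mk_smul]
    have h2 : ∀ i, LinearMap.liftBaseChange ℚ_[p] κ.toIntLinearMap ((z i : ℚ_[p]) ⊗ₜ[ℤ] (e i)) =
        Submodule.Quotient.mk ((z i : ℚ_[p]) • kumV d (Q i) (hdQ i) (hQ i)) := by
      intro i
      rw [LinearMap.liftBaseChange_tmul, Submodule.Quotient.mk_smul]
      congr 1
      exact hκ (e i) (Q i) (hQ0 i) (hQ i)
    rw [Finset.sum_congr rfl fun i _ => h2 i]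
    have h3 : (∑ i, (Submodule.Quotient.mk ((z i : ℚ_[p]) • kumV d (Q i) (hdQ i) (hQ i)) :
        Cok p d)) = Submodule.Quotient.mk (∑ i, (z i : ℚ_[p]) • kumV d (Q i) (hdQ i) (hQ i)) :=
      (map_sum (Submodule.mkQ _) _ _).symm
    rw [h3, Submodule.Quotient.eq]
    exact ⟨x, hx⟩
  rw [map_smul, h1, smul_smul, inv_mul_cancel₀ (pow_ne_zero _ hp0), one_smul]

include hj hker hdiv in
/-- **Surjectivity of the Kummer map.** -/
theorem kum_surj [Module.Finite ℤ M] (κ : M →+ Cok p d)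
    (hκ : ∀ (m : M) (Q : ℕ → A) (h0 : Q 0 = j m) (h : ∀ n, p • Q (n + 1) = Q n),
      κ m = Submodule.Quotient.mk (kumV d Q (by rw [h0]; exact d_j d j hker m) h))
    (hS : ∀ (c : V p C) (n : ℕ), ∃ a, d a = c.1 n) :
    Function.Surjective (LinearMap.liftBaseChange ℚ_[p] κ.toIntLinearMap) := by
  intro y
  obtain ⟨c, rfl⟩ := Submodule.Quotient.mk_surjective _ y
  exact mem_range_of_coord hj hker hdiv κ hκ c (hS c)


omit hp in
/-- lifting sequences -/
lemma lift_seq (hdiv : ∀ a : A, ∃ b, p • b = a) {S : Type*} [AddCommGroup S] (q : C →+ S)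
    (hq : Function.Surjective q) (hqk : ∀ y, q y = 0 ↔ ∃ a, d a = y) (s : V p S) :
    ∃ c : V p C, ∀ n, q (c.1 n) = s.1 n := by
  have hpow : ∀ (m : ℕ) (a : A), ∃ b, (p ^ m : ℕ) • b = a := by
    intro m a
    obtain ⟨Q, h0, hQ⟩ := exists_div hdiv a
    exact ⟨Q m, by rw [pow_smul_div hQ, h0]⟩
  obtain ⟨m, hm⟩ := s.tor 0
  obtain ⟨y0, hy0⟩ := hq (s.1 0)
  obtain ⟨a, ha⟩ := (hqk ((p ^ m : ℕ) • y0)).1 (by rw [map_nsmul, hy0, hm])
  obtain ⟨a', ha'⟩ := hpow m a
  have hq0 : q (y0 - d a') = s.1 0 := by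
    rw [map_sub, (hqk (d a')).2 ⟨a', rfl⟩, sub_zero, hy0]
  have h0 : (p ^ m : ℕ) • (y0 - d a') = 0 := by
    rw [smul_sub, ← map_nsmul, ha', ha, sub_self]
  have hstep : ∀ (n : ℕ) (y : C), q y = s.1 n → ∃ y', q y' = s.1 (n + 1) ∧ p • y' = y := by
    intro n y hy
    obtain ⟨z, hz⟩ := hq (s.1 (n + 1))
    obtain ⟨b, hb⟩ := (hqk (p • z - y)).1 (by rw [map_sub, map_nsmul, hz, hy, s.succ, sub_self])
    obtain ⟨b', hb'⟩ := hdiv b
    refine ⟨z - d b', ?_, ?_⟩
    · rw [map_sub, (hqk (d b')).2 ⟨b', rfl⟩, sub_zero, hz]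
    · rw [smul_sub, ← map_nsmul, hb', hb]
      abel
  choose! g hg using hstep
  let c : ℕ → C := fun n => Nat.rec (y0 - d a') (fun k y => g k y) n
  have hc : ∀ n, q (c n) = s.1 n := by
    intro n
    induction n with
    | zero => exact hq0
    | succ n ih => exact (hg n (c n) ih).1
  have hc' : ∀ n, p • c (n + 1) = c n := fun n => (hg n (c n) (hc n)).2
  refine ⟨⟨c, fun n => ⟨hc' n, m + n, ?_⟩⟩, hc⟩
  have h1 : (p ^ n : ℕ) • c n = c 0 := by
    induction n with
    | zero => simp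
    | succ n ih => rw [pow_succ, mul_smul, hc', ih]
  rw [pow_add, mul_smul, h1]
  exact h0

include hdiv in
/-- the two forms of the condition on the cokernel -/
lemma coord_iff {S : Type*} [AddCommGroup S] (q : C →+ S)
    (hq : Function.Surjective q) (hqk : ∀ y, q y = 0 ↔ ∃ a, d a = y) :
    (∀ (c : V p C) (n : ℕ), ∃ a, d a = c.1 n) ↔ ∀ s : V p S, s = 0 := by
  constructor
  · intro h s
    obtain ⟨c, hc⟩ := lift_seq hdiv q hq hqk s
    apply V.ext_of
    intro n
    rw [← hc n]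
    exact (hqk _).2 (h c n)
  · intro h c n
    have h1 := congrArg (fun s : V p S => s.1 n) (h (V.map q c))
    exact (hqk _).1 h1

include hj hker hdiv in
/-- **The Kummer map is an isomorphism if and only if `V_p(C / A) = 0`.** -/
theorem iso_iff [Module.Finite ℤ M] {S : Type*} [AddCommGroup S] (q : C →+ S)
    (hq : Function.Surjective q) (hqk : ∀ y, q y = 0 ↔ ∃ a, d a = y) :
    (∃ Φ : (ℚ_[p] ⊗[ℤ] M) ≃ₗ[ℚ_[p]] Cok p d, ∀ (m : M) (Q : ℕ → A) (h0 : Q 0 = j m)
      (h : ∀ n, p • Q (n + 1) = Q n), Φ (1 ⊗ₜ m) =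
        Submodule.Quotient.mk (kumV d Q (by rw [h0]; exact d_j d j hker m) h)) ↔
    ∀ s : V p S, s = 0 := by
  obtain ⟨κ, hκ⟩ := exists_kum (p := p) d j hker hdiv
  rw [← coord_iff hdiv q hq hqk]
  constructor
  · rintro ⟨Φ, hΦ⟩
    apply mem_of_surj hker hdiv κ hκ
    have h1 : LinearMap.liftBaseChange ℚ_[p] κ.toIntLinearMap = Φ.toLinearMap := by
      apply TensorProduct.AlgebraTensorModule.ext
      intro x m
      obtain ⟨Q, hQ0, hQ⟩ := exists_div hdiv (j m)
      rw [LinearMap.liftBaseChange_tmul]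
      have h2 : (x ⊗ₜ[ℤ] m : ℚ_[p] ⊗[ℤ] M) = x • ((1 : ℚ_[p]) ⊗ₜ[ℤ] m) := by
        rw [TensorProduct.smul_tmul', smul_eq_mul, mul_one]
      rw [h2, map_smul]
      change x • κ m = x • Φ (1 ⊗ₜ m)
      rw [hκ m Q hQ0 hQ, hΦ m Q hQ0 hQ]
    rw [h1]
    exact Φ.surjective
  · intro h
    have hbij : Function.Bijective (LinearMap.liftBaseChange ℚ_[p] κ.toIntLinearMap) :=
      ⟨kum_inj hj hker hdiv κ hκ, kum_surj hj hker hdiv κ hκ h⟩
    refine ⟨LinearEquiv.ofBijective _ hbij, fun m Q h0 hQ => ?_⟩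
    change LinearMap.liftBaseChange ℚ_[p] κ.toIntLinearMap (1 ⊗ₜ m) = _
    rw [LinearMap.liftBaseChange_tmul, one_smul]
    exact hκ m Q h0 hQ

include hj hker hdiv in
/-- **The dimension formula.** -/
theorem cok_equiv [Module.Finite ℤ M] {S : Type*} [AddCommGroup S] (q : C →+ S)
    (hq : Function.Surjective q) (hqk : ∀ y, q y = 0 ↔ ∃ a, d a = y) :
    Nonempty (Cok p d ≃ₗ[ℚ_[p]] (ℚ_[p] ⊗[ℤ] M) × V p S) := by
  obtain ⟨κ, hκ⟩ := exists_kum (p := p) d j hker hdiv
  -- the map to `V p S`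
  have hr : LinearMap.range (V.map d : V p A →ₗ[ℚ_[p]] V p C) ≤
      LinearMap.ker (V.map q : V p C →ₗ[ℚ_[p]] V p S) := by
    rintro _ ⟨x, rfl⟩
    rw [LinearMap.mem_ker]
    apply V.ext_of
    intro n
    exact (hqk _).2 ⟨x.1 n, rfl⟩
  let π : Cok p d →ₗ[ℚ_[p]] V p S := Submodule.liftQ _ (V.map q) hr
  have hπ : Function.Surjective π := by
    intro s
    obtain ⟨c, hc⟩ := lift_seq hdiv q hq hqk s
    refine ⟨Submodule.Quotient.mk c, ?_⟩
    change V.map q c = s
    apply V.ext_of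
    exact hc
  let ψ := LinearMap.liftBaseChange ℚ_[p] κ.toIntLinearMap
  have hψ : Function.Injective ψ := kum_inj hj hker hdiv κ hκ
  have hex : LinearMap.ker π = LinearMap.range ψ := by
    apply le_antisymm
    · intro y hy
      obtain ⟨c, rfl⟩ := Submodule.Quotient.mk_surjective _ y
      rw [LinearMap.mem_ker] at hy
      change V.map q c = 0 at hy
      -- all the coordinates are in the image: use the surjectivity for the subgroup
      exact mem_range_of_coord hj hker hdiv κ hκ c fun n =>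
        (hqk _).1 (congrArg (fun s : V p S => s.1 n) hy)
    · rintro _ ⟨ξ, rfl⟩
      rw [LinearMap.mem_ker]
      have hp0 : (p : ℚ_[p]) ≠ 0 := by exact_mod_cast hp.out.ne_zero
      obtain ⟨k, η, hη⟩ := exists_int ξ
      obtain ⟨e, he, he'⟩ := exists_rep hker κ hκ hdiv η
      have h1 : ((p : ℚ_[p]) ^ k) • π (ψ ξ) = 0 := by
        rw [← map_smul, ← map_smul, hη, ← he]
        change V.map q e = 0
        apply V.ext_of
        intro n
        obtain ⟨T, m, ε, h1, -, -⟩ := he' n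
        change q (e.1 n) = 0
        exact (hqk _).2 ⟨T, h1.symm⟩
      exact (smul_eq_zero.1 h1).resolve_left (pow_ne_zero _ hp0)
  obtain ⟨σ, hσ⟩ := LinearMap.exists_rightInverse_of_surjective π (LinearMap.range_eq_top.2 hπ)
  have hσ' : ∀ s, π (σ s) = s := fun s => LinearMap.congr_fun hσ s
  refine ⟨(LinearEquiv.ofBijective (LinearMap.coprod ψ σ) ⟨?_, ?_⟩).symm⟩
  · rw [injective_iff_map_eq_zero]
    rintro ⟨a, s⟩ h
    rw [LinearMap.coprod_apply] at h
    have h1 : π (ψ a) = 0 := by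
      have : ψ a ∈ LinearMap.ker π := by
        rw [hex]
        exact ⟨a, rfl⟩
      exact this
    have h2 := congrArg π h
    rw [map_add, map_zero, h1, zero_add, hσ'] at h2
    rw [h2, map_zero, add_zero] at h
    have h3 : a = 0 := by
      apply hψ
      rw [h, map_zero]
    exact Prod.ext h3 h2
  · intro y
    have h1 : y - σ (π y) ∈ LinearMap.ker π := by
      rw [LinearMap.mem_ker, map_sub, hσ', sub_self]
    rw [hex] at h1
    obtain ⟨a, ha⟩ := h1
    exact ⟨(a, π y), by rw [LinearMap.coprod_apply, ha]; abel⟩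

omit hp in
/-- no compatible sequences if the exponent is bounded -/
lemma v_zero {S : Type*} [AddCommGroup S] (m : ℕ)
    (hS : ∀ (k : ℕ) (x : S), (p ^ k : ℕ) • x = 0 → (p ^ m : ℕ) • x = 0) : ∀ s : V p S, s = 0 := by
  intro s
  apply V.ext_of
  intro n
  obtain ⟨k, hk⟩ := s.tor (n + m)
  rw [← s.pow_add n m]
  exact hS k _ hk

/-- `V_p` depends only on the primary component -/
lemma v_prim (T : Type*) [AddCommGroup T] :
    Function.Bijective (V.map (AddCommGroup.primaryComponent T p).subtype :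
      V p (AddCommGroup.primaryComponent T p) →ₗ[ℚ_[p]] V p T) := by
  constructor
  · intro x y h
    apply V.ext_of
    intro n
    exact Subtype.ext (congrArg (fun s : V p T => s.1 n) h)
  · intro x
    refine ⟨⟨fun n => ⟨x.1 n, x.tor n⟩, fun n => ⟨Subtype.ext (x.succ n), ?_⟩⟩, ?_⟩
    · obtain ⟨m, hm⟩ := x.tor n
      exact ⟨m, Subtype.ext hm⟩
    · exact V.ext_of fun n => rfl

/-- `V_p` depends only on the primary component -/
lemma v_congr {S S' : Type*} [AddCommGroup S] [AddCommGroup S']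
    (e : AddCommGroup.primaryComponent S p ≃+ AddCommGroup.primaryComponent S' p) :
    Nonempty (V p S ≃ₗ[ℚ_[p]] V p S') := by
  have h4 : Function.Bijective (V.map e.toAddMonoidHom :
      V p (AddCommGroup.primaryComponent S p) →ₗ[ℚ_[p]]
        V p (AddCommGroup.primaryComponent S' p)) := by
    constructor
    · intro x y h
      apply V.ext_of
      intro n
      exact e.injective (congrArg (fun s : V p _ => s.1 n) h)
    · intro x
      refine ⟨V.map e.symm.toAddMonoidHom x, ?_⟩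
      apply V.ext_of
      intro n
      exact e.apply_symm_apply _
  exact ⟨((LinearEquiv.ofBijective _ (v_prim (p := p) S)).symm.trans
    (LinearEquiv.ofBijective _ h4)).trans (LinearEquiv.ofBijective _ (v_prim (p := p) S'))⟩

/-- `V_p` and isomorphisms -/
lemma v_equiv {S S' : Type*} [AddCommGroup S] [AddCommGroup S'] (e : S ≃+ S') :
    Nonempty (V p S ≃ₗ[ℚ_[p]] V p S') := by
  have h4 : Function.Bijective (V.map e.toAddMonoidHom : V p S →ₗ[ℚ_[p]] V p S') := by
    constructor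
    · intro x y h
      apply V.ext_of
      intro n
      exact e.injective (congrArg (fun s : V p S' => s.1 n) h)
    · intro x
      refine ⟨V.map e.symm.toAddMonoidHom x, ?_⟩
      apply V.ext_of
      intro n
      exact e.apply_symm_apply _
  exact ⟨LinearEquiv.ofBijective _ h4⟩

/-- the dimension of `ℚ_p ⊗ M` is the rank of `M` -/
lemma finrank_tensor (M : Type*) [AddCommGroup M] [Module.Finite ℤ M] :
    Module.finrank ℚ_[p] (ℚ_[p] ⊗[ℤ] M) = Module.finrank ℤ M :=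
  (TensorProduct.isBaseChange ℤ M ℚ_[p]).finrank_eq

lemma tensor_equiv {M M' : Type*} [AddCommGroup M] [AddCommGroup M'] (h : Module.Finite ℤ M)
    (h' : Module.Finite ℤ M') (hr : Module.finrank ℤ M = Module.finrank ℤ M') :
    Nonempty ((ℚ_[p] ⊗[ℤ] M) ≃ₗ[ℚ_[p]] (ℚ_[p] ⊗[ℤ] M')) := by
  apply FiniteDimensional.nonempty_linearEquiv_of_finrank_eq
  rw [finrank_tensor, finrank_tensor, hr]

end Pool.Agent.X307
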