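import Pool.Agent.X307.Sharp

/-!
# A lower bound for the rank: the classes of the abscissas modulo squares
-/

set_option autoImplicit false

namespace Pool.Agent.X307

open WeierstrassCurve

section cls

variable {k : Type} [Field k] {W : WeierstrassCurve k} {B : k}

open Classical in
/-- the class of the abscissa -/
noncomputable def al (B : k) (W : WeierstrassCurve k) : W.toAffine.Point → k
  | 0 => 1
  | .some x _ _ => if x = 0 then B else x

lemma al_pos {x y : k} (h : W.toAffine.Nonsingular x y) (hx : x = 0) :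
    al B W (.some x y h) = B := if_pos hx

lemma al_neg {x y : k} (h : W.toAffine.Nonsingular x y) (hx : x ≠ 0) :
    al B W (.some x y h) = x := if_neg hx

lemma al_ne (hB : B ≠ 0) (P : W.toAffine.Point) : al B W P ≠ 0 := by
  rcases P with _ | ⟨x, y, h⟩
  · exact one_ne_zero
  · by_cases h0 : x = 0
    · rw [al_pos h h0]
      exact hB
    · rw [al_neg h h0]
      exact h0

end cls

section field

variable {k : Type} [Field k] [DecidableEq k] {W : WeierstrassCurve k} {A B : k}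

/-- the relations between the abscissas of three points on a line -/
lemma line (hT : Pool.Agent.Y682.IsT W A B) {x₁ x₂ y₁ y₂ : k}
    (h₁ : W.toAffine.Equation x₁ y₁) (h₂ : W.toAffine.Equation x₂ y₂)
    (hxy : ¬(x₁ = x₂ ∧ y₁ = W.toAffine.negY x₂ y₂)) {x₃ l : k}
    (hl : l = W.toAffine.slope x₁ x₂ y₁ y₂) (hx : x₃ = W.toAffine.addX x₁ x₂ l) :
    x₁ * x₂ * x₃ = (y₁ - x₁ * l) ^ 2 ∧
      x₁ * x₂ + x₁ * x₃ + x₂ * x₃ = B - 2 * l * (y₁ - x₁ * l) := by
  have h := Affine.addPolynomial_slope h₁ h₂ hxy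
  rw [← hl, ← hx, Affine.addPolynomial_eq] at h
  have hp := neg_injective h
  have e1 := hT.h1
  have e2 := hT.h2
  have e3 := hT.h3
  have e4 := hT.h4
  have e6 := hT.h6
  constructor
  · have h0 := congrArg (Polynomial.eval 0) hp
    simp only [Cubic.toPoly, Polynomial.eval_add, Polynomial.eval_mul, Polynomial.eval_C,
      Polynomial.eval_pow, Polynomial.eval_X, Polynomial.eval_sub] at h0
    simp only [WeierstrassCurve.toAffine] at h0
    rw [e1, e3, e6] at h0
    linear_combination h0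
  · have h0 := congrArg (fun q => Polynomial.eval 0 (Polynomial.derivative q)) hp
    simp only [Cubic.toPoly, Polynomial.derivative_add, Polynomial.derivative_mul,
      Polynomial.derivative_C, Polynomial.derivative_X_pow, Polynomial.derivative_X,
      Polynomial.derivative_sub, Polynomial.eval_add, Polynomial.eval_mul, Polynomial.eval_C,
      Polynomial.eval_pow, Polynomial.eval_X, Polynomial.eval_sub, Polynomial.eval_one,
      Polynomial.eval_zero] at h0
    simp only [WeierstrassCurve.toAffine] at h0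
    rw [e1, e3, e4] at h0
    simp at h0
    linear_combination (-1 : k) * h0

/-- the class of the abscissa is multiplicative modulo squares -/
lemma al_add (hT : Pool.Agent.Y682.IsT W A B) (P Q : W.toAffine.Point) :
    ∃ w : k, w ≠ 0 ∧ al B W (P + Q) = al B W P * al B W Q * w ^ 2 := by
  have hB := hT.hB
  rcases P with _ | ⟨x₁, y₁, h₁⟩
  · refine ⟨1, one_ne_zero, ?_⟩
    change al B W (0 + Q) = 1 * _ * _
    rw [zero_add, one_mul, one_pow, mul_one]
  rcases Q with _ | ⟨x₂, y₂, h₂⟩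
  · refine ⟨1, one_ne_zero, ?_⟩
    change al B W (_ + 0) = _ * 1 * _
    rw [add_zero, one_pow, mul_one, mul_one]
  by_cases hxy : x₁ = x₂ ∧ y₁ = W.toAffine.negY x₂ y₂
  · obtain ⟨hx, hy⟩ := hxy
    have e1 : al B W (.some x₁ y₁ h₁) = al B W (.some x₂ y₂ h₂) := by
      by_cases h0 : x₁ = 0
      · rw [al_pos h₁ h0, al_pos h₂ (hx ▸ h0)]
      · rw [al_neg h₁ h0, al_neg h₂ (hx ▸ h0), hx]
    rw [Affine.Point.add_of_Y_eq hx hy, e1]
    have e0 : al B W (0 : W.toAffine.Point) = 1 := rfl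
    rw [e0]
    have hne := al_ne (W := W) hB (.some x₂ y₂ h₂)
    exact ⟨(al B W (.some x₂ y₂ h₂))⁻¹, inv_ne_zero hne, by
      rw [inv_pow, ← sq, mul_inv_cancel₀ (pow_ne_zero 2 hne)]⟩
  · rw [Affine.Point.add_some hxy]
    obtain ⟨r1, r2⟩ := line hT h₁.1 h₂.1 hxy rfl rfl
    set l := W.toAffine.slope x₁ x₂ y₁ y₂ with hl
    set x₃ := W.toAffine.addX x₁ x₂ l with hx₃
    set ν := y₁ - x₁ * l with hν
    by_cases hx1 : x₁ = 0
    · rw [hx1, zero_mul, zero_mul] at r1
      have hν0 : ν = 0 := pow_eq_zero_iff two_ne_zero |>.1 r1.symm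
      rw [hx1, hν0] at r2
      have r3 : x₂ * x₃ = B := by linear_combination r2
      have hx2 : x₂ ≠ 0 := by
        rintro h
        rw [h, zero_mul] at r3
        exact hB r3.symm
      have hx3 : x₃ ≠ 0 := by
        rintro h
        rw [h, mul_zero] at r3
        exact hB r3.symm
      rw [al_pos h₁ hx1, al_neg h₂ hx2, al_neg _ hx3]
      refine ⟨x₂⁻¹, inv_ne_zero hx2, ?_⟩
      rw [← r3]
      field_simp
    by_cases hx2 : x₂ = 0
    · rw [hx2, mul_zero, zero_mul] at r1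
      have hν0 : ν = 0 := pow_eq_zero_iff two_ne_zero |>.1 r1.symm
      rw [hx2, hν0] at r2
      have r3 : x₁ * x₃ = B := by linear_combination r2
      have hx3 : x₃ ≠ 0 := by
        rintro h
        rw [h, mul_zero] at r3
        exact hB r3.symm
      rw [al_pos h₂ hx2, al_neg h₁ hx1, al_neg _ hx3]
      refine ⟨x₁⁻¹, inv_ne_zero hx1, ?_⟩
      rw [← r3]
      field_simp
    rw [al_neg h₁ hx1, al_neg h₂ hx2]
    by_cases hx3 : x₃ = 0
    · rw [hx3, mul_zero] at r1
      have hν0 : ν = 0 := pow_eq_zero_iff two_ne_zero |>.1 r1.symm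
      rw [hx3, hν0] at r2
      rw [al_pos _ hx3]
      exact ⟨1, one_ne_zero, by linear_combination (-1 : k) * r2⟩
    · rw [al_neg _ hx3]
      have hν0 : ν ≠ 0 := by
        rintro h
        rw [h, zero_pow two_ne_zero] at r1
        exact mul_ne_zero (mul_ne_zero hx1 hx2) hx3 r1
      refine ⟨ν / (x₁ * x₂), div_ne_zero hν0 (mul_ne_zero hx1 hx2), ?_⟩
      rw [div_pow, ← r1]
      field_simp

end field

open Pool.Agent.Y682 (MP)

lemma parity (p : ℕ) [hp : Fact p.Prime] {x y w : ℚ} (hx : x ≠ 0) (hw : w ≠ 0)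
    (h : y = x * w ^ 2) : ((padicValRat p y : ℤ) : ZMod 2) = ((padicValRat p x : ℤ) : ZMod 2) := by
  rw [h, padicValRat.mul hx (pow_ne_zero 2 hw), padicValRat.pow]
  push_cast
  have h2 : (2 : ZMod 2) = 0 := rfl
  rw [h2, zero_mul, add_zero]

/-- the parity of the valuation of the class of the abscissa -/
noncomputable def hv {A B : ℚ} {W : WeierstrassCurve ℚ} (hT : Pool.Agent.Y682.IsT W A B) (p : ℕ)
    [hp : Fact p.Prime] : MP W →+ ZMod 2 where
  toFun := fun P => ((padicValRat p (al B W P) : ℤ) : ZMod 2)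
  map_zero' := by
    change ((padicValRat p (1 : ℚ) : ℤ) : ZMod 2) = 0
    rw [padicValRat.one, Int.cast_zero]
  map_add' := by
    intro P Q
    obtain ⟨w, hw, h⟩ := @al_add ℚ _ (Classical.decEq ℚ) W A B hT P Q
    have h1 : al B W (P + Q : MP W) = al B W P * al B W Q * w ^ 2 := h
    have hP : al B W P ≠ 0 := al_ne hT.hB P
    have hQ : al B W Q ≠ 0 := al_ne hT.hB Q
    rw [parity p (mul_ne_zero hP hQ) hw h1, padicValRat.mul hP hQ, Int.cast_add]

/-- A curve `y² = x³ + A x² + B x` over `ℚ` with one point of order two: the classes of the abscissas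
give a lower bound of the rank. -/
theorem rank_ge {A B : ℚ} {W : WeierstrassCurve ℚ} (hT : Pool.Agent.Y682.IsT W A B)
    (hns : ¬ IsSquare (A ^ 2 - 4 * B)) (n : ℕ) (p : Fin (n + 1) → ℕ) (hp : ∀ i, (p i).Prime)
    (P : Fin (n + 1) → MP W) (Mx Nx : Matrix (Fin (n + 1)) (Fin (n + 1)) (ZMod 2))
    (hM : ∀ i j, ((padicValRat (p i) (al B W (P j)) : ℤ) : ZMod 2) = Mx i j)
    (hMN : Mx * Nx = 1) : n ≤ Module.finrank ℤ (MP W) := by
  classical
  have hfact : ∀ i, Fact (p i).Prime := fun i => ⟨hp i⟩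
  have hfg : Module.Finite ℤ (MP W) := Pool.Agent.Y682.fg_MP hT
  let H : MP W →+ (Fin (n + 1) → ZMod 2) :=
    { toFun := fun Q i => hv hT (p i) Q
      map_zero' := by funext i; exact map_zero _
      map_add' := fun Q R => by funext i; exact map_add _ _ _ }
  have hH : Function.Surjective H := by
    intro v
    let u := Matrix.mulVec Nx v
    refine ⟨∑ j, (u j).val • P j, ?_⟩
    rw [map_sum]
    funext i
    rw [Finset.sum_apply]
    have h1 : ∀ j, H ((u j).val • P j) i = Mx i j * u j := by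
      intro j
      rw [map_nsmul, Pi.smul_apply]
      change (u j).val • ((padicValRat (p i) (al B W (P j)) : ℤ) : ZMod 2) = _
      rw [hM, nsmul_eq_mul, ZMod.natCast_zmod_val, mul_comm]
    rw [Finset.sum_congr rfl fun j _ => h1 j]
    change Matrix.mulVec Mx (Matrix.mulVec Nx v) i = v i
    rw [Matrix.mulVec_mulVec, hMN, Matrix.one_mulVec]
  -- the quotient by two
  have hker : (zsmulAddGroupHom (α := MP W) 2).range ≤ H.ker := by
    rintro _ ⟨Q, rfl⟩
    rw [AddMonoidHom.mem_ker]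
    change H ((2 : ℤ) • Q) = 0
    rw [map_zsmul]
    funext i
    rw [Pi.smul_apply, zsmul_eq_mul]
    have h2 : ((2 : ℤ) : ZMod 2) = 0 := rfl
    rw [h2, zero_mul]
    rfl
  let H' : MP W ⧸ (zsmulAddGroupHom (α := MP W) 2).range →+ (Fin (n + 1) → ZMod 2) :=
    QuotientAddGroup.lift _ H hker
  have hH' : Function.Surjective H' := by
    intro v
    obtain ⟨Q, hQ⟩ := hH v
    exact ⟨QuotientAddGroup.mk Q, hQ⟩
  have hq := Pool.Agent.TeamU.card_quot_two (MP W)
  -- the points of order two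
  have h2 : Finite (zsmulAddGroupHom (α := MP W) 2).ker ∧
      Nat.card (zsmulAddGroupHom (α := MP W) 2).ker ≤ 2 := by
    have hpt : ∀ Q : (zsmulAddGroupHom (α := MP W) 2).ker, Q.1 ≠ 0 →
        ∃ h : W.toAffine.Nonsingular 0 0, Q.1 = (.some 0 0 h : W.toAffine.Point) := by
      rintro ⟨Q, hQ⟩ h0
      have hQ2 : Q + Q = 0 := by
        have h3 : (2 : ℤ) • Q = 0 := hQ
        rwa [two_zsmul] at h3
      have hneg : Q = -Q := eq_neg_of_add_eq_zero_left hQ2
      rcases Q with _ | ⟨x, y, h⟩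
      · exact absurd rfl h0
      · have h4 : (Affine.Point.some x y h : W.toAffine.Point) =
            Affine.Point.some x (W.toAffine.negY x y)
              ((Affine.nonsingular_neg ..).mpr h) := hneg
        have h5 : y = W.toAffine.negY x y := ((Affine.Point.some.injEq _ _ _ _ _ _).mp h4).2
        have h6 : W.toAffine.negY x y = -y := by
          change -y - W.a₁ * x - W.a₃ = -y
          rw [hT.h1, hT.h3]
          ring
        rw [h6] at h5
        have hy : y = 0 := by linarith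
        subst hy
        have heq := (hT.eqn x 0).1 h.1
        have h7 : x * (x ^ 2 + A * x + B) = 0 := by rw [← heq]; ring
        rcases mul_eq_zero.1 h7 with hx | hx
        · subst hx
          exact ⟨h, rfl⟩
        · exact absurd ⟨2 * x + A, by linear_combination (-4 : ℚ) * hx⟩ hns
    have hinj : Function.Injective (fun Q : (zsmulAddGroupHom (α := MP W) 2).ker =>
        decide (Q.1 = 0)) := by
      intro Q R h
      by_cases hQ : Q.1 = 0
      · by_cases hR : R.1 = 0
        · exact Subtype.ext (hQ.trans hR.symm)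
        · simp [hQ, hR] at h
      · by_cases hR : R.1 = 0
        · simp [hQ, hR] at h
        · obtain ⟨h1, h1'⟩ := hpt Q hQ
          obtain ⟨h3, h3'⟩ := hpt R hR
          exact Subtype.ext (h1'.trans h3'.symm)
    refine ⟨Finite.of_injective _ hinj, ?_⟩
    have := Nat.card_le_card_of_injective _ hinj
    simpa using this
  obtain ⟨hf2, hc2⟩ := h2
  have hfin : Finite (MP W ⧸ (zsmulAddGroupHom (α := MP W) 2).range) := by
    apply Nat.finite_of_card_ne_zero
    rw [hq]
    have : 0 < Nat.card (zsmulAddGroupHom (α := MP W) 2).ker := Nat.card_pos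
    positivity
  have hle := Nat.card_le_card_of_surjective H' hH'
  rw [hq, Nat.card_eq_fintype_card, Fintype.card_fun, ZMod.card, Fintype.card_fin] at hle
  have h3 : 2 ^ (n + 1) ≤ 2 ^ (Module.finrank ℤ (MP W) + 1) := by
    rw [pow_succ 2 (Module.finrank ℤ (MP W))]
    exact hle.trans (Nat.mul_le_mul_left _ hc2)
  have h4 := (Nat.pow_le_pow_iff_right (by norm_num : 1 < 2)).1 h3
  omega

/-- a point given by a solution of the equation of the torsor -/
lemma mk_pt {a c b b' m e N : ℤ} (hb0 : b ≠ 0) (hm0 : m ≠ 0) (he0 : e ≠ 0)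
    (hb : b * b' = 16 * c) (hc : c ≠ 0) (hD : a ^ 2 ≠ 64 * c)
    (hN : N ^ 2 = b * m ^ 4 + a * m ^ 2 * e ^ 2 + b' * e ^ 4) :
    ∃ P : MP (E ℚ a c), al (16 * (c : ℚ)) (E ℚ a c) P = (b : ℚ) * ((m : ℚ) / e) ^ 2 := by
  have e1 : (b : ℚ) ≠ 0 := by exact_mod_cast hb0
  have e2 : (m : ℚ) ≠ 0 := by exact_mod_cast hm0
  have e3 : (e : ℚ) ≠ 0 := by exact_mod_cast he0
  have hbq : (b : ℚ) * b' = 16 * c := by exact_mod_cast hb
  have hNq : (N : ℚ) ^ 2 = b * m ^ 4 + a * m ^ 2 * e ^ 2 + b' * e ^ 4 := by exact_mod_cast hN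
  set x : ℚ := (b : ℚ) * ((m : ℚ) / e) ^ 2 with hx
  set y : ℚ := (b : ℚ) * m * N / e ^ 3 with hy
  have hx0 : x ≠ 0 := mul_ne_zero e1 (pow_ne_zero 2 (div_ne_zero e2 e3))
  have hT : Pool.Agent.Y682.IsT (E ℚ a c) (a : ℚ) (16 * (c : ℚ)) := by
    refine ⟨rfl, rfl, rfl, rfl, rfl, ?_, ?_⟩
    · exact mul_ne_zero (by norm_num) (by exact_mod_cast hc)
    · intro h0
      apply hD
      have h1 : ((a ^ 2 - 64 * c : ℤ) : ℚ) = 0 := by push_cast; linear_combination h0
      have h2 : a ^ 2 - 64 * c = 0 := by exact_mod_cast h1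
      linarith
  have heq : (E ℚ a c).toAffine.Equation x y := by
    rw [hT.eqn, hy, hx, ← hbq]
    field_simp
    linear_combination hNq
  have hns : (E ℚ a c).toAffine.Nonsingular x y := by
    apply (Affine.equation_iff_nonsingular_of_Δ_ne_zero (W := (E ℚ a c).toAffine) ?_).1 heq
    change (E ℚ a c).Δ ≠ 0
    have h1 : (E ℚ a c).Δ = 16 * (16 * (c : ℚ)) ^ 2 * ((a : ℚ) ^ 2 - 4 * (16 * (c : ℚ))) := by
      simp only [WeierstrassCurve.Δ, WeierstrassCurve.b₂, WeierstrassCurve.b₄, WeierstrassCurve.b₆,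
        WeierstrassCurve.b₈, E]
      ring
    rw [h1]
    exact mul_ne_zero (mul_ne_zero (by norm_num) (pow_ne_zero 2 hT.hB)) hT.hD
  exact ⟨(.some x y hns : (E ℚ a c).toAffine.Point), al_neg hns hx0⟩

/-- the parity of the valuation of an integer not divisible by the square -/
lemma val_par (p : ℕ) [hp : Fact p.Prime] {b : ℤ} (hb : b ≠ 0) (h : ¬ ((p : ℤ) ^ 2 ∣ b)) :
    ((padicValRat p (b : ℚ) : ℤ) : ZMod 2) = if (p : ℤ) ∣ b then 1 else 0 := by
  rw [padicValRat.of_int]
  by_cases hd : (p : ℤ) ∣ b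
  · rw [if_pos hd]
    have h1 : padicValInt p b = 1 := by
      have h2 : 1 ≤ padicValInt p b := by
        have := (padicValInt_dvd_iff 1 b).1 (by rwa [pow_one])
        rcases this with h3 | h3
        · exact absurd h3 hb
        · exact h3
      have h3 : ¬ 2 ≤ padicValInt p b := fun h3 => h ((padicValInt_dvd_iff 2 b).2 (Or.inr h3))
      omega
    rw [h1]
    rfl
  · rw [if_neg hd, padicValInt.eq_zero_of_not_dvd hd]
    rfl

/-- The lower bound for the rank of `y² = x³ + a x² + 16 c x` from integral solutions of the equations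
of the torsors. -/
theorem rank_ge' {a c : ℤ} (hc : c ≠ 0) (hD : a ^ 2 ≠ 64 * c) (hns : ¬ IsSquare (a ^ 2 - 64 * c))
    (n : ℕ) (p : Fin (n + 1) → ℕ) (hp : ∀ i, (p i).Prime) (b b' m e N : Fin n → ℤ)
    (h0 : ∀ j, b j ≠ 0 ∧ m j ≠ 0 ∧ e j ≠ 0) (hbb : ∀ j, b j * b' j = 16 * c)
    (hN : ∀ j, N j ^ 2 = b j * m j ^ 4 + a * m j ^ 2 * e j ^ 2 + b' j * e j ^ 4)
    (hsc : ∀ i, ¬ ((p i : ℤ) ^ 2 ∣ c)) (hsb : ∀ i j, ¬ ((p i : ℤ) ^ 2 ∣ b j))
    (Mx Nx : Matrix (Fin (n + 1)) (Fin (n + 1)) (ZMod 2))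
    (hM0 : ∀ i, Mx i 0 = if (p i : ℤ) ∣ c then 1 else 0)
    (hM1 : ∀ i (j : Fin n), Mx i j.succ = if (p i : ℤ) ∣ b j then 1 else 0)
    (hMN : Mx * Nx = 1) : n ≤ Module.finrank ℤ (MP (E ℚ a c)) := by
  have hT : Pool.Agent.Y682.IsT (E ℚ a c) (a : ℚ) (16 * (c : ℚ)) := by
    refine ⟨rfl, rfl, rfl, rfl, rfl, ?_, ?_⟩
    · exact mul_ne_zero (by norm_num) (by exact_mod_cast hc)
    · intro h0
      apply hD
      have h1 : ((a ^ 2 - 64 * c : ℤ) : ℚ) = 0 := by push_cast; linear_combination h0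
      have h2 : a ^ 2 - 64 * c = 0 := by exact_mod_cast h1
      linarith
  -- the point of order two
  have hns0 : (E ℚ a c).toAffine.Nonsingular 0 0 := by
    have heq : (E ℚ a c).toAffine.Equation 0 0 := by
      rw [hT.eqn]
      ring
    apply (Affine.equation_iff_nonsingular_of_Δ_ne_zero (W := (E ℚ a c).toAffine) ?_).1 heq
    change (E ℚ a c).Δ ≠ 0
    have h1 : (E ℚ a c).Δ = 16 * (16 * (c : ℚ)) ^ 2 * ((a : ℚ) ^ 2 - 4 * (16 * (c : ℚ))) := by
      simp only [WeierstrassCurve.Δ, WeierstrassCurve.b₂, WeierstrassCurve.b₄, WeierstrassCurve.b₆,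
        WeierstrassCurve.b₈, E]
      ring
    rw [h1]
    exact mul_ne_zero (mul_ne_zero (by norm_num) (pow_ne_zero 2 hT.hB)) hT.hD
  choose P hP using fun j => mk_pt (h0 j).1 (h0 j).2.1 (h0 j).2.2 (hbb j) hc hD (hN j)
  refine rank_ge hT ?_ n p hp (Fin.cases (.some 0 0 hns0 : (E ℚ a c).toAffine.Point) P) Mx Nx ?_ hMN
  · intro h
    apply hns
    have h1 : (a : ℚ) ^ 2 - 4 * (16 * (c : ℚ)) = ((a ^ 2 - 64 * c : ℤ) : ℚ) := by
      push_cast
      ring
    rw [h1, Rat.isSquare_intCast_iff] at h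
    exact h
  · intro i j
    have hfact : Fact (p i).Prime := ⟨hp i⟩
    refine Fin.cases ?_ (fun j => ?_) j
    · rw [hM0 i]
      change ((padicValRat (p i) (al (16 * (c : ℚ)) (E ℚ a c) (.some 0 0 hns0)) : ℤ) : ZMod 2) = _
      rw [al_pos hns0 rfl, parity (p i) (x := (c : ℚ)) (w := 4) (by exact_mod_cast hc)
        (by norm_num) (by ring)]
      exact val_par (p i) hc (hsc i)
    · rw [hM1 i j]
      change ((padicValRat (p i) (al (16 * (c : ℚ)) (E ℚ a c) (P j)) : ℤ) : ZMod 2) = _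
      have e1 : (b j : ℚ) ≠ 0 := by exact_mod_cast (h0 j).1
      have e2 : (m j : ℚ) / e j ≠ 0 :=
        div_ne_zero (by exact_mod_cast (h0 j).2.1) (by exact_mod_cast (h0 j).2.2)
      rw [parity (p i) e1 e2 (hP j)]
      exact val_par (p i) (h0 j).1 (hsb i j)

end Pool.Agent.X307
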