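import Mathlib

/-!
# The curves `y² = x³ + a x² + 16 c x`
-/

set_option autoImplicit false

namespace Pool.Agent.X307

/-- The curve `y² = x³ + a x² + 16 c x` over `K`. -/
def E (K : Type) [Field K] (a c : ℤ) : WeierstrassCurve K := ⟨0, (a : K), 0, 16 * (c : K), 0⟩

/-- The number of the prime factors of `n`. -/
def om (n : ℤ) : ℕ := n.natAbs.primeFactors.card

end Pool.Agent.X307
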