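import Pool.Agent.X307.VMod

/-!
# The Kummer isomorphism: definitions
-/

set_option autoImplicit false

namespace Pool.Agent.X307

open scoped TensorProduct

variable {p : ℕ} {A C M : Type*} [AddCommGroup A] [AddCommGroup C] [AddCommGroup M]

lemma pow_smul_div {Q : ℕ → A} (h : ∀ n, p • Q (n + 1) = Q n) (n : ℕ) :
    (p ^ n : ℕ) • Q n = Q 0 := by
  induction n with
  | zero => simp
  | succ n ih => rw [pow_succ, mul_smul, h, ih]

lemma kumV_mem (d : A →+ C) (Q : ℕ → A) (h0 : d (Q 0) = 0) (h : ∀ n, p • Q (n + 1) = Q n) :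
    (fun n => d (Q n)) ∈ VSub p C := by
  intro n
  refine ⟨?_, n, ?_⟩
  · change p • d (Q (n + 1)) = d (Q n)
    rw [← map_nsmul, h]
  · change (p ^ n : ℕ) • d (Q n) = 0
    rw [← map_nsmul, pow_smul_div h, h0]

/-- the Kummer sequence of a sequence of divisions by `p` of an element of the kernel -/
def kumV (d : A →+ C) (Q : ℕ → A) (h0 : d (Q 0) = 0) (h : ∀ n, p • Q (n + 1) = Q n) : V p C :=
  ⟨fun n => d (Q n), kumV_mem d Q h0 h⟩

variable [hp : Fact p.Prime]

/-- The vector space `ℚ_p ⊗ M` of a group `M`. -/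
def Ten (p : ℕ) [Fact p.Prime] (M : Type*) [AddCommGroup M] : Type _ := ℚ_[p] ⊗[ℤ] M

noncomputable instance Ten.group : AddCommGroup (Ten p M) :=
  (inferInstance : AddCommGroup (ℚ_[p] ⊗[ℤ] M))

noncomputable instance Ten.module : Module ℚ_[p] (Ten p M) :=
  (inferInstance : Module ℚ_[p] (ℚ_[p] ⊗[ℤ] M))

/-- The element `1 ⊗ m` of `ℚ_p ⊗ M`. -/
noncomputable def one_t (p : ℕ) [Fact p.Prime] (m : M) : Ten p M := (1 : ℚ_[p]) ⊗ₜ[ℤ] m

/-- The image of the map `V_p(A) → V_p(C)` induced by a homomorphism `A → C`. -/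
noncomputable def rgV (p : ℕ) [Fact p.Prime] (d : A →+ C) : Submodule ℚ_[p] (V p C) :=
  LinearMap.range (V.map d)

/-- The cokernel of the map `V_p(A) → V_p(C)` induced by a homomorphism `A → C`. -/
def CokD (p : ℕ) [Fact p.Prime] (d : A →+ C) : Type _ := V p C ⧸ rgV p d

noncomputable instance CokD.group (d : A →+ C) : AddCommGroup (CokD p d) :=
  Submodule.Quotient.addCommGroup (rgV p d)

noncomputable instance CokD.module (d : A →+ C) : Module ℚ_[p] (CokD p d) :=
  Submodule.Quotient.module (rgV p d)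

/-- The class of an element of `V_p(C)`. -/
noncomputable def clD (d : A →+ C) (x : V p C) : CokD p d := (rgV p d).mkQ x

/-- The Kummer map of the complex `M → A → C`, that is the map `ℚ_p ⊗ M → V_p(C) / V_p(A)` which maps
`1 ⊗ m` to the class of the sequence of the images of `Q₀, Q₁, …` in `C`, where `Q₀, Q₁, …` is a sequence
of elements of `A` such that `Q₀` is the image of `m` and `p Qₙ₊₁ = Qₙ`, is an isomorphism of vector
spaces over `ℚ_p`. -/
def KumIso (p : ℕ) [Fact p.Prime] (d : A →+ C) (j : M →+ A) : Prop :=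
  ∃ Φ : Ten p M ≃ₗ[ℚ_[p]] CokD p d, ∀ (m : M) (Q : ℕ → A) (h0 : d (Q 0) = 0)
    (h : ∀ n, p • Q (n + 1) = Q n), Q 0 = j m → Φ (one_t p m) = clD d (kumV d Q h0 h)

end Pool.Agent.X307
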