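import Pool.Agent.X307.AJ2

/-!
# The Kummer isomorphism
-/

set_option autoImplicit false

namespace Pool.Agent.X307

open scoped TensorProduct

section

variable {p : ℕ} [hp : Fact p.Prime] {A C M : Type} [AddCommGroup A] [AddCommGroup C]
  [AddCommGroup M]

variable {d : A →+ C} {j : M →+ A} (hj : Function.Injective j)
  (hker : ∀ a : A, d a = 0 ↔ ∃ m, j m = a) (hdiv : ∀ a : A, ∃ b, p • b = a)

include hj hker hdiv in
/-- **The Kummer map is an isomorphism if and only if `V_p(C / A) = 0`.** -/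
theorem kumIso_iff [Module.Finite ℤ M] {S : Type} [AddCommGroup S] (q : C →+ S)
    (hq : Function.Surjective q) (hqk : ∀ y, q y = 0 ↔ ∃ a, d a = y) :
    KumIso p d j ↔ ∀ s : V p S, s = 0 := by
  rw [← iso_iff hj hker hdiv q hq hqk]
  constructor
  · rintro ⟨Φ, hΦ⟩
    exact ⟨Φ, fun m Q h0 h => hΦ m Q (by rw [h0]; exact d_j d j hker m) h h0⟩
  · rintro ⟨Φ, hΦ⟩
    exact ⟨Φ, fun m Q h0 h h1 => hΦ m Q h1 h⟩

include hj hker hdiv in
/-- **The dimension formula.** -/
theorem cokD_equiv [Module.Finite ℤ M] {S : Type} [AddCommGroup S] (q : C →+ S)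
    (hq : Function.Surjective q) (hqk : ∀ y, q y = 0 ↔ ∃ a, d a = y) :
    Nonempty (CokD p d ≃ₗ[ℚ_[p]] Ten p M × V p S) :=
  cok_equiv hj hker hdiv q hq hqk

/-- the dimension of `ℚ_p ⊗ M` is the rank of `M` -/
lemma finrank_ten (p : ℕ) [Fact p.Prime] (M : Type) [AddCommGroup M] [Module.Finite ℤ M] :
    Module.finrank ℚ_[p] (Ten p M) = Module.finrank ℤ M :=
  finrank_tensor M

lemma ten_equiv {M M' : Type} [AddCommGroup M] [AddCommGroup M'] (h : Module.Finite ℤ M)
    (h' : Module.Finite ℤ M') (hr : Module.finrank ℤ M = Module.finrank ℤ M') :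
    Nonempty (Ten p M ≃ₗ[ℚ_[p]] Ten p M') :=
  tensor_equiv h h' hr

end

end Pool.Agent.X307
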