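import Pool.Agent.X307.VMod
import Pool.Agent.TH841.SH.Pw

/-!
# The rational Tate module and the divisible part of a group with finite `p`-torsion
-/

set_option autoImplicit false

namespace Pool.Agent.X307

open Finset

variable {p : ℕ} [hp : Fact p.Prime] {S : Type} [AddCommGroup S]

/-- the elements of the Tate module `T_p` -/
def IsTate (x : V p S) : Prop := x.1 0 = 0

lemma IsTate.pow {x : V p S} (hx : IsTate x) (n : ℕ) : (p ^ n : ℕ) • x.1 n = 0 := by
  have h := x.pow_add 0 n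
  rw [zero_add] at h
  rw [h]
  exact hx

lemma p_smul (x : V p S) (n : ℕ) : ((p : ℚ_[p]) • x).1 n = p • x.1 n := by
  have h3 := V.zsmul_apply (((p : ℤ) : ℤ_[p])) x n
  obtain ⟨l, hl⟩ := x.tor n
  rw [zs_int _ hl, natCast_zsmul] at h3
  rw [← h3]
  push_cast
  rfl

/-- the shift -/
lemma shift (x : V p S) : ∃ y : V p S, (p : ℚ_[p]) • y = x ∧ ∀ n, y.1 n = x.1 (n + 1) := by
  refine ⟨⟨fun n => x.1 (n + 1), fun n => ⟨x.succ (n + 1), x.tor (n + 1)⟩⟩, ?_, fun n => rfl⟩
  apply V.ext_of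
  intro n
  rw [p_smul]
  exact x.succ n

/-- every element `x` of the Tate module is, on the level `p`, a combination of the elements of `s` -/
def Gen1 (s : Finset (V p S)) : Prop :=
  (∀ t ∈ s, IsTate t) ∧ ∀ x : V p S, IsTate x → ∃ a : V p S → ℤ, x.1 1 = ∑ t ∈ s, a t • t.1 1

/-- on the level `p` the elements of `s` are independent -/
def Ind1 (s : Finset (V p S)) : Prop :=
  ∀ a : V p S → ℤ, ∑ t ∈ s, a t • t.1 1 = 0 → ∀ t ∈ s, (p : ℤ) ∣ a t

lemma exists_gen1 (hS : {s : S | p • s = 0}.Finite) : ∃ s : Finset (V p S), Gen1 s := by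
  classical
  have h1 : {s : S | ∃ x : V p S, IsTate x ∧ x.1 1 = s}.Finite := by
    refine hS.subset ?_
    rintro s ⟨x, hx, rfl⟩
    have := hx.pow 1
    rwa [pow_one] at this
  choose! f hf hf' using fun (s : S) (hs : s ∈ {s : S | ∃ x : V p S, IsTate x ∧ x.1 1 = s}) => hs
  refine ⟨h1.toFinset.image f, ?_, fun x hx => ?_⟩
  · intro t ht
    obtain ⟨s, hs, rfl⟩ := mem_image.1 ht
    exact hf s (h1.mem_toFinset.1 hs)
  · refine ⟨Pi.single (f (x.1 1)) 1, ?_⟩
    rw [sum_eq_single (f (x.1 1))]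
    · rw [Pi.single_eq_same, one_smul, hf' _ ⟨x, hx, rfl⟩]
    · intro b _ hb
      rw [Pi.single_eq_of_ne hb, zero_smul]
    · intro h
      exact absurd (mem_image_of_mem f (h1.mem_toFinset.2 ⟨x, hx, rfl⟩)) h

lemma exists_basis1 (hS : {s : S | p • s = 0}.Finite) :
    ∃ s : Finset (V p S), Gen1 s ∧ Ind1 s := by
  classical
  have hex : ∃ n : ℕ, ∃ s : Finset (V p S), Gen1 s ∧ s.card = n := by
    obtain ⟨s, hs⟩ := exists_gen1 hS
    exact ⟨_, s, hs, rfl⟩
  obtain ⟨s, hs, hc⟩ := Nat.find_spec hex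
  refine ⟨s, hs, ?_⟩
  intro a ha j hj
  by_contra hpj
  have hmin : ∀ s' : Finset (V p S), Gen1 s' → s.card ≤ s'.card := by
    intro s' hs'
    rw [hc]
    exact Nat.find_min' hex ⟨s', hs', rfl⟩
  have hcop : IsCoprime (a j) (p : ℤ) :=
    (((Nat.prime_iff_prime_int.1 hp.out).irreducible.coprime_iff_not_dvd).2 hpj).symm
  obtain ⟨b, c, hbc⟩ := hcop
  have hj1 : ∀ k : ℤ, k • j.1 1 = k • (b * a j) • j.1 1 := by
    intro k
    have h0 := (hs.1 j hj).pow 1
    rw [pow_one] at h0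
    have h1 : ((b * a j + c * p : ℤ)) • j.1 1 = j.1 1 := by rw [hbc, one_smul]
    rw [add_smul, mul_smul c, natCast_zsmul, h0, smul_zero, add_zero] at h1
    rw [h1]
  have hrel : a j • j.1 1 = - ∑ t ∈ s.erase j, a t • t.1 1 := by
    rw [← add_sum_erase s _ hj] at ha
    exact eq_neg_of_add_eq_zero_left ha
  have hg : Gen1 (s.erase j) := by
    refine ⟨fun t ht => hs.1 t (mem_of_mem_erase ht), fun x hx => ?_⟩
    obtain ⟨u, hu⟩ := hs.2 x hx
    refine ⟨fun t => u t - u j * b * a t, ?_⟩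
    rw [hu, ← add_sum_erase s _ hj, hj1, mul_smul b, hrel]
    simp only [sub_smul, sum_sub_distrib]
    rw [smul_neg, smul_neg, add_comm, ← sub_eq_add_neg, smul_smul, smul_sum]
    simp only [mul_smul]
  have h2 := hmin _ hg
  rw [card_erase_of_mem hj] at h2
  have h3 := card_pos.2 ⟨j, hj⟩
  omega

/-- evaluation at `0` is additive -/
def ev0 : V p S →+ S where
  toFun x := x.1 0
  map_zero' := rfl
  map_add' _ _ := rfl

lemma sum_apply (s : Finset (V p S)) (F : V p S → V p S) (n : ℕ) :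
    (∑ t ∈ s, F t).1 n = ∑ t ∈ s, (F t).1 n := by
  classical
  induction s using Finset.induction_on with
  | empty => rfl
  | insert a s ha ih =>
    rw [sum_insert ha, sum_insert ha, ← ih]
    rfl

/-- the coordinates of an element of the span that lies in the Tate module are integral -/
lemma integral {s : Finset (V p S)} (hs : ∀ t ∈ s, IsTate t) (hi : Ind1 s) (m : ℕ) :
    ∀ q : V p S → ℚ_[p], (∀ t ∈ s, ‖(p : ℚ_[p]) ^ m * q t‖ ≤ 1) →
      IsTate (∑ t ∈ s, q t • t) → ∀ t ∈ s, ‖q t‖ ≤ 1 := by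
  induction m with
  | zero =>
    intro q hq _ t ht
    have := hq t ht
    rwa [pow_zero, one_mul] at this
  | succ m ih =>
    intro q hq h0
    apply ih q ?_ h0
    -- the element `p ^ m * q t` is `z t / p`
    have hz : ∀ t : V p S, ∃ z : ℤ_[p], t ∈ s → (z : ℚ_[p]) = ((p : ℚ_[p]) ^ m * q t) * (p : ℚ_[p]) ^ 1 := by
      intro t
      by_cases ht : t ∈ s
      · refine ⟨⟨(p : ℚ_[p]) ^ (m + 1) * q t, hq t ht⟩, fun _ => ?_⟩
        change (p : ℚ_[p]) ^ (m + 1) * q t = _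
        ring
      · exact ⟨0, fun h => absurd h ht⟩
    choose z hz using hz
    have h1 : (∑ t ∈ s, ((p : ℚ_[p]) ^ m * q t) • t).1 0 = 0 := by
      have e1 : ∑ t ∈ s, ((p : ℚ_[p]) ^ m * q t) • t = ((p : ℚ_[p]) ^ m) • ∑ t ∈ s, q t • t := by
        rw [smul_sum]
        exact sum_congr rfl fun t _ => mul_smul _ _ _
      rw [e1]
      have h3 := V.zsmul_apply ((((p ^ m : ℕ) : ℤ) : ℤ_[p])) (∑ t ∈ s, q t • t) 0
      obtain ⟨l, hl⟩ := (∑ t ∈ s, q t • t).tor 0
      rw [zs_int _ hl, natCast_zsmul] at h3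
      have e2 : (((((p ^ m : ℕ) : ℤ) : ℤ_[p])) : ℚ_[p]) = (p : ℚ_[p]) ^ m := by
        push_cast
        rfl
      rw [e2] at h3
      rw [h3]
      have h4 : (∑ t ∈ s, q t • t).1 0 = 0 := h0
      rw [h4, smul_zero]
    have h2 : ∀ t ∈ s, (((p : ℚ_[p]) ^ m * q t) • t).1 0 = ((z t).appr 1) • t.1 1 := by
      intro t ht
      rw [V.smul_apply ((p : ℚ_[p]) ^ m * q t) t 0 (hz t ht), zero_add]
      exact zs_appr ((hs t ht).pow 1)
    rw [sum_apply, sum_congr rfl h2] at h1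
    have h3 := hi (fun t => ((z t).appr 1 : ℤ)) (by
      rw [← h1]
      exact sum_congr rfl fun t _ => natCast_zsmul _ _)
    intro t ht
    obtain ⟨c, hc⟩ := h3 t ht
    have h4 := PadicInt.appr_spec 1 (z t)
    rw [pow_one, Ideal.mem_span_singleton] at h4
    obtain ⟨w, hw⟩ := h4
    have h5 : z t = (p : ℤ_[p]) * (w + (c : ℤ_[p])) := by
      have h6 : (((z t).appr 1 : ℕ) : ℤ_[p]) = (p : ℤ_[p]) * (c : ℤ_[p]) := by
        have := congrArg (Int.cast : ℤ → ℤ_[p]) hc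
        push_cast at this
        exact this
      rw [h6] at hw
      linear_combination hw
    have hp0 : (p : ℚ_[p]) ≠ 0 := by exact_mod_cast hp.out.ne_zero
    have h6 : (p : ℚ_[p]) ^ m * q t = ((w + (c : ℤ_[p]) : ℤ_[p]) : ℚ_[p]) := by
      have h7 := hz t ht
      rw [h5, pow_one, mul_comm _ (p : ℚ_[p]), PadicInt.coe_mul] at h7
      have h8 : (((p : ℕ) : ℤ_[p]) : ℚ_[p]) = (p : ℚ_[p]) := by push_cast; rfl
      rw [h8] at h7
      exact (mul_left_cancel₀ hp0 h7).symm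
    rw [h6]
    exact PadicInt.norm_le_one _

/-- the elements of the Tate module are combinations with coefficients in `ℤ_p` -/
lemma span_tate {s : Finset (V p S)} (hs : Gen1 s) {x : V p S} (hx : IsTate x) :
    ∃ z : V p S → ℤ_[p], x = ∑ t ∈ s, (z t : ℚ_[p]) • t := by
  classical
  have step : ∀ y : {y : V p S // IsTate y}, ∃ (a : V p S → ℤ) (y' : {y : V p S // IsTate y}),
      y.1 = (∑ t ∈ s, (a t : ℚ_[p]) • t) + (p : ℚ_[p]) • y'.1 := by
    rintro ⟨y, hy⟩
    obtain ⟨a, ha⟩ := hs.2 y hy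
    obtain ⟨w, hw, hw'⟩ := shift (y - ∑ t ∈ s, (a t : ℚ_[p]) • t)
    refine ⟨a, ⟨w, ?_⟩, ?_⟩
    · change w.1 0 = 0
      rw [hw', zero_add]
      change y.1 1 - (∑ t ∈ s, (a t : ℚ_[p]) • t).1 1 = 0
      rw [sum_apply, ha, sub_eq_zero]
      refine sum_congr rfl fun t ht => ?_
      have h3 := V.zsmul_apply ((a t : ℤ_[p])) t 1
      obtain ⟨l, hl⟩ := t.tor 1
      rw [zs_int _ hl] at h3
      rw [← h3]
      push_cast
      rfl
    · change y = _ + (p : ℚ_[p]) • w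
      rw [hw, add_sub_cancel]
  choose a nx hnx using step
  obtain ⟨y, hy0, hy⟩ : ∃ y : ℕ → {y : V p S // IsTate y}, y 0 = ⟨x, hx⟩ ∧
      ∀ n, y (n + 1) = nx (y n) := ⟨fun n => nx^[n] ⟨x, hx⟩, rfl, fun n =>
        Function.iterate_succ_apply' _ _ _⟩
  let u : ℕ → V p S → ℤ := fun n t => ∑ k ∈ range n, (p : ℤ) ^ k * a (y k) t
  have hu : ∀ n, x = (∑ t ∈ s, (u n t : ℚ_[p]) • t) + (p : ℚ_[p]) ^ n • (y n).1 := by
    intro n
    induction n with
    | zero =>
      have : (y 0).1 = x := by rw [hy0]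
      rw [this]
      simp [u]
    | succ n ih =>
      conv_lhs => rw [ih, hnx (y n)]
      rw [← hy, smul_add, ← add_assoc, smul_smul, ← pow_succ, smul_sum, ← sum_add_distrib]
      congr 1
      refine sum_congr rfl fun t _ => ?_
      rw [smul_smul, ← add_smul]
      congr 1
      simp only [u, sum_range_succ]
      push_cast
      ring
  have hlim : ∀ t, ∃ z : ℤ_[p], ∀ n, z - (u n t : ℤ_[p]) ∈
      (Ideal.span {(p : ℤ_[p]) ^ n} : Ideal ℤ_[p]) := by
    intro t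
    have hstep : ∀ n k, ((u n t : ℤ_[p]) - (u (n + k) t : ℤ_[p])) ∈
        (Ideal.span {(p : ℤ_[p]) ^ n} : Ideal ℤ_[p]) := by
      intro n k
      induction k with
      | zero => simp
      | succ k ih =>
        have h1 : ((u (n + k) t : ℤ_[p]) - (u (n + (k + 1)) t : ℤ_[p])) ∈
            (Ideal.span {(p : ℤ_[p]) ^ n} : Ideal ℤ_[p]) := by
          rw [Ideal.mem_span_singleton]
          refine ⟨-((p : ℤ_[p]) ^ k * (a (y (n + k)) t : ℤ_[p])), ?_⟩
          simp only [u, ← add_assoc, sum_range_succ]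
          push_cast
          ring
        have h2 := Ideal.add_mem _ ih h1
        rwa [sub_add_sub_cancel] at h2
    obtain ⟨L, hL⟩ := IsPrecomplete.prec (I := IsLocalRing.maximalIdeal ℤ_[p]) (M := ℤ_[p])
      inferInstance (f := fun n => (u n t : ℤ_[p])) (by
        intro n l hnl
        obtain ⟨k, rfl⟩ := Nat.exists_eq_add_of_le hnl
        rw [SModEq.sub_mem, PadicInt.maximalIdeal_eq_span_p, Ideal.span_singleton_pow,
          smul_eq_mul, Ideal.mul_top]
        exact hstep n k)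
    refine ⟨L, fun n => ?_⟩
    have h1 := (hL n).symm
    rw [SModEq.sub_mem, PadicInt.maximalIdeal_eq_span_p, Ideal.span_singleton_pow,
      smul_eq_mul, Ideal.mul_top] at h1
    exact h1
  choose z hz using hlim
  refine ⟨z, V.ext_of fun n => ?_⟩
  conv_lhs => rw [hu n]
  change (∑ t ∈ s, (u n t : ℚ_[p]) • t).1 n + ((p : ℚ_[p]) ^ n • (y n).1).1 n = _
  have h1 : ((p : ℚ_[p]) ^ n • (y n).1).1 n = 0 := by
    have h3 := V.zsmul_apply ((((p ^ n : ℕ) : ℤ) : ℤ_[p])) (y n).1 n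
    obtain ⟨l, hl⟩ := (y n).1.tor n
    rw [zs_int _ hl, natCast_zsmul] at h3
    have e2 : (((((p ^ n : ℕ) : ℤ) : ℤ_[p])) : ℚ_[p]) = (p : ℚ_[p]) ^ n := by
      push_cast
      rfl
    rw [e2] at h3
    rw [h3]
    exact (y n).2.pow n
  rw [h1, add_zero, sum_apply, sum_apply]
  refine sum_congr rfl fun t ht => ?_
  have h2 := (hs.1 t ht).pow n
  rw [V.zsmul_apply (z t) t n, zs_eq h2 (hz t n)]
  have h3 := V.zsmul_apply ((u n t : ℤ_[p])) t n
  rw [zs_int _ h2] at h3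
  rw [← h3]
  push_cast
  rfl

end Pool.Agent.X307
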