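import Pool.Agent.X307.SelT
import Pool.Agent.Y723.QT.Crv

/-!
# The rational Tate module of the Tate-Shafarevich group over multiquadratic fields
-/

set_option autoImplicit false
set_option linter.unusedSectionVars false

attribute [-instance] DivisionRing.toRatAlgebra

namespace Pool.Agent.X307

open WeierstrassCurve

open Pool.Agent.TH841.NF

open Pool.Agent.TH841.SH.D (Pt act Gal Coch IsCoc IsCob LocTriv cob)

section cor

variable {G M : Type} [Group G] [AddCommGroup M]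

lemma cor_congr {H H' : Subgroup G} {i : Fintype (G ⧸ H)} {i' : Fintype (G ⧸ H')} (h : H = H')
    (a : G →* AddMonoid.End M) (χ : G →* ℤ) (f : G → M) (g : G) :
    @cor G M _ _ H i (sec H) a χ f g = @cor G M _ _ H' i' (sec H') a χ f g := by
  subst h
  have : i = i' := Subsingleton.elim _ _
  subst this
  rfl

end cor

section mq

variable {F : Type} [Field F] [NumberField F] [Algebra ℚ F] {E : WeierstrassCurve ℚ}
  {W : WeierstrassCurve F}
  (hW : Sc (algebraMap ℚ F) 1 E W) (E1 : E.a₁ = 0) (E3 : E.a₃ = 0)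
  (e : AlgebraicClosure F ≃+* Qb)
  {n : ℕ} {r : Fin n → F} {d : Fin n → ℚ} (hr : ∀ i, r i ^ 2 = algebraMap ℚ F (d i))
  (hd : ∀ i, d i ≠ 0) (hgen : IntermediateField.adjoin ℚ (Set.range r) = ⊤)

include hgen in
lemma HH_eq : HH e hr hd = Pool.Agent.Y682.HF e :=
  Subgroup.ext fun g => mem_HH e hr hd hgen g

lemma chT_empty : chT (rh_sq e hr) (rh_ne e hr hd) ∅ = 1 := by
  refine MonoidHom.ext fun g => ?_
  have h : chT (rh_sq e hr) (rh_ne e hr hd) ∅ g =
    (((∏ i ∈ (∅ : Finset (Fin n)), chi (rh_sq e hr i) (rh_ne e hr hd i)) g : ℤˣ) : ℤ) := rfl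
  rw [h, Finset.prod_empty]
  rfl

include hgen in
lemma Th_empty {f : Coch W} (h : IsCob E (Pool.Agent.Y682.co hW e f)) :
    IsCob (tw (∏ i ∈ ∅, d i) E) (Th hW E1 E3 e hr hd ∅ f) := by
  obtain ⟨P, hP⟩ := h
  refine ⟨tm (sc_tw E1 E3 (RingHom.id Qb) (prod_sq (rh_sq e hr) ∅)
    (Finset.prod_ne_zero_iff.2 fun i _ => rh_ne e hr hd i)) P, fun σ => ?_⟩
  have h1 : cor (sec (HH e hr hd)) (aG E) (chT (rh_sq e hr) (rh_ne e hr hd) ∅)
      (tr hW e f) σ = act E σ.toAlgHom P - P := by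
    rw [chT_empty e hr hd]
    exact (cor_congr (HH_eq e hr hd hgen) (aG E) 1 (tr hW e f) σ).trans (hP σ)
  unfold Th
  rw [h1, map_sub]
  congr 1
  have h2 := tw_act (sc_tw E1 E3 (RingHom.id Qb) (prod_sq (rh_sq e hr) ∅)
    (Finset.prod_ne_zero_iff.2 fun i _ => rh_ne e hr hd i)) σ.toAlgHom 1 (Or.inl rfl) (by
      rw [Finset.prod_empty, map_one, Int.cast_one, mul_one]) P
  rw [one_smul] at h2
  exact h2

lemma thS_empty {x : D.Sha W} (h : Pool.Agent.Y682.coS hW e x = 0) :
    thS hW E1 E3 e hr hd hgen ∅ x = 0 := by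
  induction x using QuotientAddGroup.induction_on with
  | H f =>
    have h1 : IsCob E (Pool.Agent.Y682.co hW e f.1) :=
      (QuotientAddGroup.eq_zero_iff (Pool.Agent.Y682.coC hW e f)).1 h
    exact (QuotientAddGroup.eq_zero_iff (thC hW E1 E3 e hr hd hgen ∅ f)).2
      (Th_empty hW E1 E3 e hr hd hgen h1)

include hW e E1 E3 hr hd hgen in
/-- the corestriction is an isomorphism if the rational Tate modules of the twists are zero -/
theorem v_co (hT : ∀ T : Finset (Fin n), T.Nonempty →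
    ∀ s : V 2 (Pool.Agent.TH841.SH.D.Sha (tw (∏ i ∈ T, d i) E)), s = 0) :
    Nonempty (V 2 (D.Sha W) ≃ₗ[ℚ_[2]] V 2 (Pool.Agent.TH841.SH.D.Sha E)) := by
  refine ⟨LinearEquiv.ofBijective (V.map (Pool.Agent.Y682.coS hW e)) ⟨?_, ?_⟩⟩
  · rw [injective_iff_map_eq_zero]
    intro s hs
    have h0 : ∀ m, Pool.Agent.Y682.coS hW e (s.1 m) = 0 := fun m => by
      have := congrArg (fun y : V 2 (Pool.Agent.TH841.SH.D.Sha E) => y.1 m) hs
      exact this
    have h1 : ∀ m, (2 ^ n : ℕ) • s.1 m = 0 := by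
      intro m
      apply thS_ker hW E1 E3 e hr hd hgen
      intro T
      rcases T.eq_empty_or_nonempty with rfl | hne
      · exact thS_empty hW E1 E3 e hr hd hgen (h0 m)
      · have h2 := hT T hne (V.map (thS hW E1 E3 e hr hd hgen T) s)
        exact congrArg (fun y : V 2 (Pool.Agent.TH841.SH.D.Sha (tw (∏ i ∈ T, d i) E)) => y.1 m) h2
    apply V.ext_of
    intro m
    have h2 := s.pow_add m n
    rw [h1] at h2
    exact h2.symm
  · intro y
    have hN : (Module.finrank ℚ F : ℚ_[2]) ≠ 0 := by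
      have := (Module.finrank_pos (R := ℚ) (M := F)).ne'
      exact_mod_cast this
    refine ⟨((Module.finrank ℚ F : ℚ_[2]))⁻¹ • V.map (Pool.Agent.Y682.rsS hW e) y, ?_⟩
    rw [map_smul]
    have h1 : V.map (Pool.Agent.Y682.coS hW e) (V.map (Pool.Agent.Y682.rsS hW e) y) =
        (Module.finrank ℚ F : ℚ_[2]) • y := by
      apply V.ext_of
      intro m
      have h2 : ((Module.finrank ℚ F : ℚ_[2]) • y).1 m = (Module.finrank ℚ F) • y.1 m := by
        have h3 := V.zsmul_apply ((((Module.finrank ℚ F : ℕ) : ℤ) : ℤ_[2])) y m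
        obtain ⟨l, hl⟩ := y.tor m
        rw [zs_int _ hl, natCast_zsmul] at h3
        rw [← h3]
        push_cast
        rfl
      rw [h2]
      exact Pool.Agent.Y682.coS_rsS hW e (y.1 m)
    rw [h1, smul_smul, inv_mul_cancel₀ hN, one_smul]

end mq

end Pool.Agent.X307
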