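import Pool.Agent.Y682.AMF
import Pool.Agent.X307.SelT
import Pool.Agent.X307.ED

/-!
# Curves for which the bound of the descent by a point of order two is attained
-/

set_option autoImplicit false

open NumberField IsDedekindDomain

namespace Pool.Agent.X307

open Pool.Agent.Y682 (NCl)

section places

variable {K : Type} [Field K] [NumberField K]

/-- a prime factor of `n` in a prime ideal that contains `n` -/
lemma exists_prime_mem {n : ℤ} (hn : n ≠ 0) (v : HeightOneSpectrum (𝓞 K))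
    (h : (n : 𝓞 K) ∈ v.asIdeal) : ∃ p ∈ n.natAbs.primeFactors, ((p : ℕ) : 𝓞 K) ∈ v.asIdeal := by
  have h1 : ((n.natAbs : ℕ) : 𝓞 K) ∈ v.asIdeal := by
    rcases Int.natAbs_eq n with h2 | h2
    · have h3 : (n : 𝓞 K) = ((n.natAbs : ℕ) : 𝓞 K) := by
        conv_lhs => rw [h2]
        exact Int.cast_natCast _
      rwa [← h3]
    · have h3 : (n : 𝓞 K) = -((n.natAbs : ℕ) : 𝓞 K) := by
        conv_lhs => rw [h2]
        rw [Int.cast_neg, Int.cast_natCast]
      rw [h3] at h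
      exact neg_mem_iff.1 h
  have hn0 : n.natAbs ≠ 0 := Int.natAbs_ne_zero.2 hn
  rw [← Nat.prod_primeFactorsList hn0, Nat.cast_list_prod] at h1
  obtain ⟨x, hx, hx'⟩ := (Ideal.IsPrime.multiset_prod_mem_iff_exists_mem v.isPrime
    (((n.natAbs.primeFactorsList).map (Nat.cast : ℕ → 𝓞 K) : List (𝓞 K)) : Multiset (𝓞 K))).1
      (by simpa using h1)
  simp only [Multiset.mem_coe, List.mem_map] at hx
  obtain ⟨p, hp, rfl⟩ := hx
  exact ⟨p, Nat.mem_primeFactors.2 ⟨Nat.prime_of_mem_primeFactorsList hp,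
    Nat.dvd_of_mem_primeFactorsList hp, hn0⟩, hx'⟩

/-- the places at which `n` is not a unit, if there is only one place above each prime factor -/
lemma exists_places {n : ℤ} (hn : n ≠ 0)
    (h : ∀ p : ℕ, p.Prime → (p : ℤ) ∣ n → ∀ v w : HeightOneSpectrum (𝓞 K),
      (p : 𝓞 K) ∈ v.asIdeal → (p : 𝓞 K) ∈ w.asIdeal → v = w) :
    ∃ T : Finset (HeightOneSpectrum (𝓞 K)), (∀ v, v ∈ T ↔ (n : 𝓞 K) ∈ v.asIdeal) ∧
      T.card ≤ n.natAbs.primeFactors.card := by
  classical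
  let S : Type := {v : HeightOneSpectrum (𝓞 K) // (n : 𝓞 K) ∈ v.asIdeal}
  choose f hf hf' using fun v : S => exists_prime_mem hn v.1 v.2
  have hinj : Function.Injective
      (fun v : S => (⟨f v, hf v⟩ : {x // x ∈ n.natAbs.primeFactors})) := by
    intro v w hvw
    have h1 : f v = f w := congrArg Subtype.val hvw
    have hp := Nat.prime_of_mem_primeFactors (hf v)
    have hd : ((f v : ℕ) : ℤ) ∣ n := Int.natCast_dvd.2 (Nat.dvd_of_mem_primeFactors (hf v))
    exact Subtype.ext (h (f v) hp hd v.1 w.1 (hf' v) (by rw [h1]; exact hf' w))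
  have hfin : Finite S := Finite.of_injective _ hinj
  have hft : Fintype S := Fintype.ofFinite S
  refine ⟨(Finset.univ : Finset S).map (Function.Embedding.subtype _), fun v => ?_, ?_⟩
  · rw [Finset.mem_map]
    constructor
    · rintro ⟨w, -, rfl⟩
      exact w.2
    · intro hv
      exact ⟨⟨v, hv⟩, Finset.mem_univ _, rfl⟩
  · rw [Finset.card_map, Finset.card_univ]
    have h1 := Fintype.card_le_of_injective _ hinj
    rwa [Fintype.card_coe] at h1

end places

open Pool.Agent.TH841.NF.D (rk Sha)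

lemma isT_E {a c : ℤ} (hc : 0 < c) (hD : a ^ 2 ≠ 64 * c) (K : Type) [Field K] [CharZero K] :
    Pool.Agent.Y682.IsT (E K a c) (a : K) (16 * (c : K)) := by
  refine ⟨rfl, rfl, rfl, rfl, rfl, ?_, ?_⟩
  · exact mul_ne_zero (by norm_num) (by exact_mod_cast hc.ne')
  · intro h0
    apply hD
    have h1 : ((a ^ 2 - 64 * c : ℤ) : K) = 0 := by push_cast; linear_combination h0
    have h2 : a ^ 2 - 64 * c = 0 := by exact_mod_cast h1
    linarith

/-- **The bound.** -/
theorem sharp_bound (K : Type) [Field K] [NumberField K] [IsTotallyReal K]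
    (hcl : Odd (Nat.card (NCl K))) {a c : ℤ} (ha : a % 4 = 1) (hc : 0 < c)
    (hD : a ^ 2 ≠ 64 * c) (ht : a < 0 ∨ a ^ 2 < 64 * c)
    (hbad : ∀ p : ℕ, p.Prime → (p : ℤ) ∣ c * (a ^ 2 - 64 * c) →
      ∀ v w : HeightOneSpectrum (𝓞 K), (p : 𝓞 K) ∈ v.asIdeal → (p : 𝓞 K) ∈ w.asIdeal → v = w) :
    Finite {x : Sha (E K a c) // 2 • x = 0} ∧
    4 * 2 ^ (rk (E K a c)) * Nat.card {x : Sha (E K a c) // 2 • x = 0} ≤
      2 ^ (om c + om (a ^ 2 - 64 * c)) := by
  have hD' : a ^ 2 - 64 * c ≠ 0 := fun h => hD (by linarith)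
  obtain ⟨T1, h1, h1'⟩ := exists_places (K := K) hc.ne' fun p hp hd =>
    hbad p hp (Dvd.dvd.mul_right hd _)
  obtain ⟨T2, h2, h2'⟩ := exists_places (K := K) hD' fun p hp hd =>
    hbad p hp (Dvd.dvd.mul_left hd _)
  have hK : ∀ n : ℤ, algebraMap (𝓞 K) K (n : 𝓞 K) = (n : K) := fun n => map_intCast _ n
  obtain ⟨k, hk⟩ : ∃ k : ℤ, a = 1 + 4 * k := ⟨a / 4, by omega⟩
  have key := Pool.Agent.Y682.bound_final (K := K) (a : 𝓞 K) (c : 𝓞 K) 1 (k : 𝓞 K)
    (by rw [hk]; push_cast; ring)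
    (by exact_mod_cast hc.ne')
    (by
      intro h0
      apply hD'
      have h3 : ((a ^ 2 - 64 * c : ℤ) : 𝓞 K) = 0 := by push_cast; exact h0
      exact_mod_cast h3)
    (fun φ => by
      have e1 : φ (((c : ℤ) : 𝓞 K) : K) = (c : ℝ) := by
        change φ (algebraMap (𝓞 K) K (c : 𝓞 K)) = _
        rw [hK, map_intCast]
      have e2 : φ (((a : ℤ) : 𝓞 K) : K) = (a : ℝ) := by
        change φ (algebraMap (𝓞 K) K (a : 𝓞 K)) = _
        rw [hK, map_intCast]
      rw [e1, e2]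
      refine ⟨by exact_mod_cast hc, ?_⟩
      rcases ht with ht | ht
      · left; exact_mod_cast ht
      · right; exact_mod_cast ht)
    T1 T2 (fun v hv => Or.inl fun h => hv ((h1 v).2 h))
    (fun v hv => Or.inl fun h => hv ((h2 v).2 (by push_cast; exact h)))
    (fun v hv h2v => by
      have h3 := (h2 v).1 hv
      apply v.isPrime.ne_top
      rw [Ideal.eq_top_iff_one]
      obtain ⟨l, hl⟩ : ∃ l : ℤ, a ^ 2 - 64 * c = 1 + 2 * l := ⟨4 * k + 8 * k ^ 2 - 32 * c, by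
        rw [hk]; ring⟩
      have h4 : (1 : 𝓞 K) = ((a ^ 2 - 64 * c : ℤ) : 𝓞 K) - (l : 𝓞 K) * 2 := by
        rw [hl]; push_cast; ring
      rw [h4]
      exact Ideal.sub_mem _ h3 (Ideal.mul_mem_left _ _ h2v))
    (P := (a : K)) (Q := 16 * (c : K)) (Or.inl ⟨(hK a).symm, by
      change _ = 16 * algebraMap (𝓞 K) K (c : 𝓞 K)
      rw [hK]⟩)
  obtain ⟨hf, hb⟩ := key
  refine ⟨hf, hb.trans ?_⟩
  have hNC : Nat.card {g : NCl K // g ^ 2 = 1} = 1 := by
    rw [Nat.card_eq_one_iff_unique]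
    refine ⟨⟨fun x y => ?_⟩, ⟨⟨1, one_pow 2⟩⟩⟩
    have key : ∀ x : {g : NCl K // g ^ 2 = 1}, x.1 = 1 := by
      intro x
      have g1 : orderOf x.1 ∣ 2 := orderOf_dvd_of_pow_eq_one x.2
      have g2 : orderOf x.1 ∣ Nat.card (NCl K) := orderOf_dvd_natCard _
      have g3 : orderOf x.1 ∣ 1 := by
        have g4 : Nat.Coprime 2 (Nat.card (NCl K)) := Nat.coprime_two_left.2 hcl
        rw [← Nat.Coprime.gcd_eq_one g4]
        exact Nat.dvd_gcd g1 g2
      exact orderOf_eq_one_iff.1 (Nat.dvd_one.1 g3)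
    exact Subtype.ext ((key x).trans (key y).symm)
  rw [IsTotallyReal.nrComplexPlaces_eq_zero K, hNC, one_pow, mul_one, zero_add]
  exact Nat.pow_le_pow_right (by norm_num) (Nat.add_le_add h1' h2')

/-- the rank does not decrease -/
lemma rk_mono {a c : ℤ} (hc : 0 < c) (hD : a ^ 2 ≠ 64 * c) (K : Type) [Field K] [NumberField K] :
    Module.finrank ℤ (Pool.Agent.Y682.MP (E ℚ a c)) ≤
      Module.finrank ℤ (Pool.Agent.Y682.MP (E K a c)) := by
  have hS : Pool.Agent.TH841.NF.Sc (algebraMap ℚ K) 1 (E ℚ a c) (E K a c) := by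
    refine ⟨one_ne_zero, ?_, ?_, ?_, ?_, ?_⟩ <;> simp [E]
  have hfg : Module.Finite ℤ (Pool.Agent.Y682.MP (E K a c)) :=
    Pool.Agent.Y682.fg_MP (isT_E hc hD K)
  exact LinearMap.finrank_le_finrank_of_injective
    (f := (Pool.Agent.Y682.mt hS).toIntLinearMap) (Pool.Agent.Y682.mt_inj hS)

end Pool.Agent.X307
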