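import Mathlib

/-!
# The rational `p`-adic Tate module of an abelian group

`V p A` is the group of the sequences `x₀, x₁, …` of elements of `A` of `p`-power order with
`p xₙ₊₁ = xₙ`.  It is a vector space over `ℚ_p`.  For `A` the group of the points of an elliptic curve
over an algebraically closed field it is `V_p = T_p ⊗ ℚ_p` (`xₙ` is the class of `p⁻ⁿ x` in
`V_p / T_p = A[p ^ ∞]`).
-/

set_option autoImplicit false

namespace Pool.Agent.X307

open scoped TensorProduct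

section zs

variable {p : ℕ} [hp : Fact p.Prime] {A : Type*} [AddCommGroup A]

open Classical in
/-- The action of a `p`-adic integer `z` on an element `t` of `p`-power order: multiplication by any
natural number congruent to `z` modulo the order of `t`. -/
noncomputable def zs (z : ℤ_[p]) (t : A) : A :=
  if h : ∃ m : ℕ, (p ^ m : ℕ) • t = 0 then (z.appr (Nat.find h)) • t else 0

omit hp in
lemma smul_eq_of_dvd {m : ℕ} {t : A} (h : (p ^ m : ℕ) • t = 0) {a b : ℤ}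
    (hab : ((p ^ m : ℕ) : ℤ) ∣ a - b) : a • t = b • t := by
  obtain ⟨c, hc⟩ := hab
  have h1 : a = b + c * ((p ^ m : ℕ) : ℤ) := by linarith
  rw [h1, add_smul, mul_smul, natCast_zsmul, h, smul_zero, add_zero]

lemma int_dvd_of_mem {m : ℕ} {a b : ℤ}
    (h : ((a : ℤ_[p]) - (b : ℤ_[p])) ∈ (Ideal.span {(p : ℤ_[p]) ^ m} : Ideal ℤ_[p])) :
    ((p ^ m : ℕ) : ℤ) ∣ a - b := by
  have h1 : (((a - b : ℤ) : ℤ_[p])) ∈ (Ideal.span {(p : ℤ_[p]) ^ m} : Ideal ℤ_[p]) := by
    push_cast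
    exact h
  rw [← PadicInt.norm_le_pow_iff_mem_span_pow, PadicInt.norm_int_le_pow_iff_dvd] at h1
  exact_mod_cast h1

/-- the basic property of the action -/
lemma zs_eq {z : ℤ_[p]} {t : A} {m : ℕ} (h : (p ^ m : ℕ) • t = 0) {a : ℤ}
    (ha : z - (a : ℤ_[p]) ∈ (Ideal.span {(p : ℤ_[p]) ^ m} : Ideal ℤ_[p])) : zs z t = a • t := by
  classical
  have hex : ∃ m : ℕ, (p ^ m : ℕ) • t = 0 := ⟨m, h⟩
  rw [zs, dif_pos hex, ← natCast_zsmul]
  apply smul_eq_of_dvd (Nat.find_spec hex)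
  apply int_dvd_of_mem
  have h1 := PadicInt.appr_spec (Nat.find hex) z
  have h2 : (Ideal.span {(p : ℤ_[p]) ^ m} : Ideal ℤ_[p]) ≤
      Ideal.span {(p : ℤ_[p]) ^ (Nat.find hex)} := by
    rw [Ideal.span_singleton_le_span_singleton]
    exact pow_dvd_pow _ (Nat.find_min' hex h)
  have h3 := Ideal.sub_mem _ (h2 ha) h1
  have h4 : ((((z.appr (Nat.find hex) : ℕ) : ℤ) : ℤ_[p]) - (a : ℤ_[p])) =
      (z - (a : ℤ_[p])) - (z - (z.appr (Nat.find hex) : ℤ_[p])) := by
    push_cast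
    ring
  rw [h4]
  exact h3

lemma zs_appr {z : ℤ_[p]} {t : A} {m : ℕ} (h : (p ^ m : ℕ) • t = 0) :
    zs z t = (z.appr m) • t := by
  rw [← natCast_zsmul]
  apply zs_eq h
  exact_mod_cast PadicInt.appr_spec m z

lemma zs_tor {z : ℤ_[p]} {t : A} {m : ℕ} (h : (p ^ m : ℕ) • t = 0) :
    (p ^ m : ℕ) • zs z t = 0 := by
  rw [zs_appr h, smul_comm, h, smul_zero]

lemma zs_add_right {z : ℤ_[p]} {t u : A} {m : ℕ} (ht : (p ^ m : ℕ) • t = 0)
    (hu : (p ^ m : ℕ) • u = 0) : zs z (t + u) = zs z t + zs z u := by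
  have h : (p ^ m : ℕ) • (t + u) = 0 := by rw [smul_add, ht, hu, add_zero]
  rw [zs_appr h, zs_appr ht, zs_appr hu, smul_add]

lemma zs_int (a : ℤ) {t : A} {m : ℕ} (ht : (p ^ m : ℕ) • t = 0) :
    zs (a : ℤ_[p]) t = a • t := by
  apply zs_eq ht
  rw [sub_self]
  exact Ideal.zero_mem _

lemma zs_add_left {z w : ℤ_[p]} {t : A} {m : ℕ} (ht : (p ^ m : ℕ) • t = 0) :
    zs (z + w) t = zs z t + zs w t := by
  rw [zs_appr ht (z := z), zs_appr ht (z := w), ← add_smul, ← natCast_zsmul]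
  apply zs_eq ht
  have h1 := Ideal.add_mem _ (PadicInt.appr_spec m z) (PadicInt.appr_spec m w)
  have h2 : z + w - (((z.appr m + w.appr m : ℕ) : ℤ) : ℤ_[p]) =
      (z - (z.appr m : ℤ_[p])) + (w - (w.appr m : ℤ_[p])) := by
    push_cast
    ring
  rw [h2]
  exact h1

lemma zs_mul {z w : ℤ_[p]} {t : A} {m : ℕ} (ht : (p ^ m : ℕ) • t = 0) :
    zs (z * w) t = zs z (zs w t) := by
  rw [zs_appr (zs_tor ht) (z := z), zs_appr ht (z := w), smul_smul, ← natCast_zsmul]
  apply zs_eq ht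
  have h1 := Ideal.add_mem _ (Ideal.mul_mem_left _ w (PadicInt.appr_spec m z))
    (Ideal.mul_mem_left _ (z.appr m : ℤ_[p]) (PadicInt.appr_spec m w))
  have h2 : z * w - (((z.appr m * w.appr m : ℕ) : ℤ) : ℤ_[p]) =
      w * (z - (z.appr m : ℤ_[p])) + (z.appr m : ℤ_[p]) * (w - (w.appr m : ℤ_[p])) := by
    push_cast
    ring
  rw [h2]
  exact h1

lemma zs_map {B : Type*} [AddCommGroup B] (f : A →+ B) {z : ℤ_[p]} {t : A} {m : ℕ}
    (ht : (p ^ m : ℕ) • t = 0) : zs z (f t) = f (zs z t) := by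
  have h : (p ^ m : ℕ) • f t = 0 := by rw [← map_nsmul, ht, map_zero]
  rw [zs_appr h, zs_appr ht, map_nsmul]

end zs

variable (p : ℕ)

/-- The sequences `x₀, x₁, …` of elements of `p`-power order with `p xₙ₊₁ = xₙ`. -/
def VSub (A : Type*) [AddCommGroup A] : AddSubgroup (ℕ → A) where
  carrier := {x | ∀ n, p • x (n + 1) = x n ∧ ∃ m : ℕ, (p ^ m : ℕ) • x n = 0}
  zero_mem' := fun _ => ⟨smul_zero _, 0, smul_zero _⟩
  add_mem' := by
    intro x y hx hy n
    obtain ⟨h1, m, hm⟩ := hx n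
    obtain ⟨h2, l, hl⟩ := hy n
    refine ⟨?_, m + l, ?_⟩
    · change p • (x (n + 1) + y (n + 1)) = x n + y n
      rw [smul_add, h1, h2]
    · change (p ^ (m + l) : ℕ) • (x n + y n) = 0
      rw [smul_add, pow_add, mul_comm, mul_smul, hm, smul_zero, mul_comm, mul_smul, hl, smul_zero,
        add_zero]
  neg_mem' := by
    intro x hx n
    obtain ⟨h1, m, hm⟩ := hx n
    refine ⟨?_, m, ?_⟩
    · change p • (-x (n + 1)) = -x n
      rw [smul_neg, h1]
    · change (p ^ m : ℕ) • (-x n) = 0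
      rw [smul_neg, hm, neg_zero]

/-- The rational `p`-adic Tate module of `A`: the sequences `x₀, x₁, …` of elements of `p`-power order
with `p xₙ₊₁ = xₙ`. -/
def V (A : Type*) [AddCommGroup A] : Type _ := VSub p A

instance V.group (A : Type*) [AddCommGroup A] : AddCommGroup (V p A) :=
  @AddSubgroup.toAddCommGroup (ℕ → A) _ (VSub p A)

namespace V

variable {p} {A : Type*} [AddCommGroup A]

lemma succ (x : V p A) (n : ℕ) : p • x.1 (n + 1) = x.1 n := (x.2 n).1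

lemma pow_add (x : V p A) (n k : ℕ) : (p ^ k : ℕ) • x.1 (n + k) = x.1 n := by
  induction k with
  | zero => simp
  | succ k ih =>
    rw [pow_succ, mul_smul, ← add_assoc, x.succ, ih]

lemma tor (x : V p A) (n : ℕ) : ∃ m : ℕ, (p ^ m : ℕ) • x.1 n = 0 := (x.2 n).2

lemma tor0 (x : V p A) : ∃ m : ℕ, ∀ n, (p ^ (m + n) : ℕ) • x.1 n = 0 := by
  obtain ⟨m, hm⟩ := x.tor 0
  refine ⟨m, fun n => ?_⟩
  have h := x.pow_add 0 n
  rw [zero_add] at h
  rw [_root_.pow_add, mul_smul, h, hm]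

lemma ext_of {x y : V p A} (h : ∀ n, x.1 n = y.1 n) : x = y := Subtype.ext (funext h)

variable [hp : Fact p.Prime]

/-- the exponent of the denominator of `q` -/
lemma exists_den (q : ℚ_[p]) : ∃ k : ℕ, ‖q * (p : ℚ_[p]) ^ k‖ ≤ 1 := by
  have hp1 : (1 : ℝ) < p := by exact_mod_cast hp.out.one_lt
  obtain ⟨k, hk⟩ := pow_unbounded_of_one_lt ‖q‖ hp1
  refine ⟨k, ?_⟩
  rw [norm_mul, norm_pow, Padic.norm_p, inv_pow]
  rw [mul_inv_le_iff₀ (by positivity), one_mul]
  exact hk.le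

open Classical in
/-- an exponent of the denominator of `q` -/
noncomputable def den (q : ℚ_[p]) : ℕ := Nat.find (exists_den q)

open Classical in
lemma den_spec (q : ℚ_[p]) : ‖q * (p : ℚ_[p]) ^ (den q)‖ ≤ 1 := Nat.find_spec (exists_den q)

open Classical in
lemma den_le {q : ℚ_[p]} {k : ℕ} (h : ‖q * (p : ℚ_[p]) ^ k‖ ≤ 1) : den q ≤ k :=
  Nat.find_min' (exists_den q) h

/-- the `p`-adic integer `q p ^ (den q)` -/
noncomputable def zq (q : ℚ_[p]) : ℤ_[p] := ⟨q * (p : ℚ_[p]) ^ (den q), den_spec q⟩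

lemma coe_zq (q : ℚ_[p]) : ((zq q : ℤ_[p]) : ℚ_[p]) = q * (p : ℚ_[p]) ^ (den q) := rfl

/-- the underlying sequence of `q • x` -/
noncomputable def qs (q : ℚ_[p]) (x : ℕ → A) (n : ℕ) : A :=
  zs (zq q) (x (n + den q))

lemma qs_eq (q : ℚ_[p]) (x : V p A) (n : ℕ) {k : ℕ} {z : ℤ_[p]}
    (h : (z : ℚ_[p]) = q * (p : ℚ_[p]) ^ k) : qs q x.1 n = zs z (x.1 (n + k)) := by
  have hk : ‖q * (p : ℚ_[p]) ^ k‖ ≤ 1 := by
    rw [← h]
    exact z.2
  obtain ⟨l, hl⟩ := Nat.exists_eq_add_of_le (den_le hk)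
  have h1 : z = zq q * (((p ^ l : ℕ) : ℤ) : ℤ_[p]) := by
    apply Subtype.ext
    rw [h, hl, _root_.pow_add]
    push_cast
    rw [coe_zq]
    ring
  obtain ⟨m, hm⟩ := x.tor (n + k)
  rw [qs, h1, zs_mul hm, zs_int _ hm, natCast_zsmul, hl, ← add_assoc, x.pow_add]

lemma qs_mem (q : ℚ_[p]) (x : V p A) : qs q x.1 ∈ VSub p A := by
  intro n
  obtain ⟨m, hm⟩ := x.tor0
  have h1 : (p ^ (m + (n + 1 + den q)) : ℕ) • x.1 (n + 1 + den q) = 0 := hm _
  refine ⟨?_, m + (n + den q), ?_⟩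
  · change p • zs _ (x.1 (n + 1 + den q)) = zs _ (x.1 (n + den q))
    rw [zs_appr h1, smul_comm, show n + 1 + den q = n + den q + 1 by ring, x.succ]
    have h2 : (p ^ (m + (n + den q + 1)) : ℕ) • x.1 (n + den q) = 0 := by
      rw [← add_assoc, pow_succ, mul_comm, mul_smul, hm, smul_zero]
    rw [zs_appr h2]
  · change _ • zs _ (x.1 (n + den q)) = 0
    exact zs_tor (hm _)

/-- the action of `ℚ_p` -/
noncomputable instance : SMul ℚ_[p] (V p A) where
  smul q x := ⟨qs q x.1, qs_mem q x⟩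

lemma smul_apply (q : ℚ_[p]) (x : V p A) (n : ℕ) {k : ℕ} {z : ℤ_[p]}
    (h : (z : ℚ_[p]) = q * (p : ℚ_[p]) ^ k) : (q • x).1 n = zs z (x.1 (n + k)) := qs_eq q x n h

lemma exists_zk (q : ℚ_[p]) {k : ℕ} (h : den q ≤ k) :
    ∃ z : ℤ_[p], (z : ℚ_[p]) = q * (p : ℚ_[p]) ^ k := by
  obtain ⟨l, hl⟩ := Nat.exists_eq_add_of_le h
  refine ⟨zq q * (p : ℤ_[p]) ^ l, ?_⟩
  rw [hl, _root_.pow_add]
  push_cast
  rw [coe_zq]
  ring

lemma zsmul_apply (z : ℤ_[p]) (x : V p A) (n : ℕ) :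
    ((z : ℚ_[p]) • x).1 n = zs z (x.1 n) :=
  smul_apply (z : ℚ_[p]) x n (k := 0) (by rw [pow_zero, mul_one])

noncomputable instance : Module ℚ_[p] (V p A) where
  one_smul x := by
    apply ext_of
    intro n
    obtain ⟨m, hm⟩ := x.tor n
    have h1 := zsmul_apply (1 : ℤ_[p]) x n
    rw [PadicInt.coe_one] at h1
    rw [h1]
    have h2 := zs_int (p := p) 1 hm
    rw [Int.cast_one] at h2
    rw [h2, one_smul]
  mul_smul q r x := by
    apply ext_of
    intro n
    obtain ⟨z, hz⟩ := exists_zk q (le_refl _)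
    obtain ⟨w, hw⟩ := exists_zk r (le_refl _)
    rw [smul_apply q (r • x) n hz, smul_apply r x _ hw,
      smul_apply (q * r) x n (k := den q + den r) (z := z * w)]
    · obtain ⟨m, hm⟩ := x.tor (n + (den q + den r))
      rw [zs_mul hm, add_assoc]
    · push_cast
      rw [hz, hw, _root_.pow_add]
      ring
  smul_zero q := by
    apply ext_of
    intro n
    obtain ⟨z, hz⟩ := exists_zk q (le_refl _)
    rw [smul_apply q _ n hz]
    change zs z (0 : A) = 0
    have h0 : (p ^ 0 : ℕ) • (0 : A) = 0 := smul_zero _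
    rw [zs_appr h0, smul_zero]
  smul_add q x y := by
    apply ext_of
    intro n
    obtain ⟨z, hz⟩ := exists_zk q (le_refl _)
    obtain ⟨m, hm⟩ := x.tor (n + den q)
    obtain ⟨l, hl⟩ := y.tor (n + den q)
    have e1 : (p ^ (m + l) : ℕ) • x.1 (n + den q) = 0 := by
      rw [_root_.pow_add, mul_comm, mul_smul, hm, smul_zero]
    have e2 : (p ^ (m + l) : ℕ) • y.1 (n + den q) = 0 := by
      rw [_root_.pow_add, mul_smul, hl, smul_zero]
    rw [smul_apply q _ n hz]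
    change zs z (x.1 (n + den q) + y.1 (n + den q)) = (q • x).1 n + (q • y).1 n
    rw [zs_add_right e1 e2, smul_apply q x n hz, smul_apply q y n hz]
  add_smul q r x := by
    apply ext_of
    intro n
    obtain ⟨z, hz⟩ := exists_zk q (le_max_left (den q) (den r))
    obtain ⟨w, hw⟩ := exists_zk r (le_max_right (den q) (den r))
    obtain ⟨m, hm⟩ := x.tor (n + max (den q) (den r))
    have hzw : ((z + w : ℤ_[p]) : ℚ_[p]) = (q + r) * (p : ℚ_[p]) ^ (max (den q) (den r)) := by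
      push_cast
      rw [hz, hw]
      ring
    rw [smul_apply (q + r) x n hzw]
    change _ = (q • x).1 n + (r • x).1 n
    rw [smul_apply q x n hz, smul_apply r x n hw, zs_add_left hm]
  zero_smul x := by
    apply ext_of
    intro n
    obtain ⟨m, hm⟩ := x.tor n
    have h1 := zsmul_apply (0 : ℤ_[p]) x n
    rw [PadicInt.coe_zero] at h1
    rw [h1]
    have h2 := zs_int (p := p) 0 hm
    rw [Int.cast_zero] at h2
    rw [h2, zero_smul]
    rfl

omit hp in
lemma map_mem {B : Type*} [AddCommGroup B] (f : A →+ B) (x : V p A) :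
    (fun n => f (x.1 n)) ∈ VSub p B := fun n => ⟨by
    change p • f (x.1 (n + 1)) = f (x.1 n)
    rw [← map_nsmul, x.succ], by
    obtain ⟨m, hm⟩ := x.tor n
    refine ⟨m, ?_⟩
    change (p ^ m : ℕ) • f (x.1 n) = 0
    rw [← map_nsmul, hm, map_zero]⟩

/-- the image of a sequence -/
def mp {B : Type*} [AddCommGroup B] (f : A →+ B) (x : V p A) : V p B :=
  ⟨fun n => f (x.1 n), map_mem f x⟩

omit hp in
lemma mp_add {B : Type*} [AddCommGroup B] (f : A →+ B) (x y : V p A) :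
    mp f (x + y) = mp f x + mp f y := by
  apply ext_of
  intro n
  exact map_add f _ _

lemma mp_smul {B : Type*} [AddCommGroup B] (f : A →+ B) (q : ℚ_[p]) (x : V p A) :
    mp f (q • x) = q • mp f x := by
  apply ext_of
  intro n
  obtain ⟨z, hz⟩ := exists_zk q (le_refl _)
  refine Eq.trans ?_ (smul_apply q _ n hz).symm
  change f ((q • x).1 n) = zs z (f (x.1 (n + den q)))
  obtain ⟨m, hm⟩ := x.tor (n + den q)
  rw [smul_apply q x n hz, zs_map f hm]

/-- the map induced by a homomorphism of groups -/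
noncomputable def map {B : Type*} [AddCommGroup B] (f : A →+ B) : V p A →ₗ[ℚ_[p]] V p B where
  toFun := mp f
  map_add' := mp_add f
  map_smul' := mp_smul f

@[simp] lemma map_apply {B : Type*} [AddCommGroup B] (f : A →+ B) (x : V p A) (n : ℕ) :
    (map f x).1 n = f (x.1 n) := rfl

end V

end Pool.Agent.X307
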